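import Pool.Agent.Work.MP_9d4fac_gt.Interface

set_option autoImplicit false

namespace Pool.BraidIndex

open Finset

namespace LB

variable {p : ℕ} [NeZero p]

/-- decomposition of a list of length at least `i + a` -/
theorem dec3 {α : Type} (v : List α) (i a : ℕ) (h : i + a ≤ v.length) :
    ∃ l u r, v = l ++ u ++ r ∧ l.length = i ∧ u.length = a :=
  ⟨v.take i, (v.drop i).take a, v.drop (i + a), by
    rw [List.append_assoc]
    conv_lhs => rw [← List.take_append_drop i v]
    congr 1
    conv_lhs => rw [← List.take_append_drop a (v.drop i)]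
    rw [List.drop_drop], by
    rw [List.length_take]; omega, by
    rw [List.length_take, List.length_drop]; omega⟩

theorem osplit (k : Kind) (l u r : List Bool) (h : u.length = k.ar) :
    stepO (k, l.length) (l ++ u ++ r) = (k.ori u).map fun u' => l ++ u' ++ r := by
  unfold stepO
  have h1 : l.length + k.ar ≤ (l ++ u ++ r).length := by
    rw [List.length_append, List.length_append, h]; omega
  have h2 : (l ++ u ++ r).drop l.length = u ++ r := by
    rw [List.append_assoc, List.drop_left]
  have h3 : (l ++ u ++ r).take l.length = l := by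
    rw [List.append_assoc, List.take_left]
  have h4 : (l ++ u ++ r).drop (l.length + k.ar) = r := by
    rw [← List.drop_drop, h2, ← h, List.drop_left]
  have h5 : (u ++ r).take k.ar = u := by rw [← h, List.take_left]
  simp only [h1, if_true, h2, h3, h4, h5]

theorem split (k : Kind) (l u r : List (ZMod p)) (D : List Piece) (h : u.length = k.ar) :
    N p ((k, l.length) :: D) (l ++ u ++ r) = ∑ u' ∈ k.col p u, N p D (l ++ u' ++ r) := by
  show ∑ v' ∈ act p (k, l.length) (l ++ u ++ r), N p D v' = _
  unfold act
  have h1 : l.length + k.ar ≤ (l ++ u ++ r).length := by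
    rw [List.length_append, List.length_append, h]; omega
  have h2 : (l ++ u ++ r).drop l.length = u ++ r := by
    rw [List.append_assoc, List.drop_left]
  have h3 : (l ++ u ++ r).take l.length = l := by
    rw [List.append_assoc, List.take_left]
  have h4 : (l ++ u ++ r).drop (l.length + k.ar) = r := by
    rw [← List.drop_drop, h2, ← h, List.drop_left]
  have h5 : (u ++ r).take k.ar = u := by rw [← h, List.take_left]
  simp only [h1, if_true, h2, h3, h4, h5]
  rw [Finset.sum_image]
  intro x _ y _ hxy
  simpa using hxy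

theorem ncup (o : Bool) (l r : List (ZMod p)) (D : List Piece) :
    N p ((.cup o, l.length) :: D) (l ++ r) = ∑ c : ZMod p, N p D (l ++ c :: c :: r) := by
  have h := split (.cup o) l [] r D rfl
  rw [List.append_nil] at h
  rw [h]
  show ∑ u' ∈ Finset.univ.image (fun c : ZMod p => [c, c]), _ = _
  rw [Finset.sum_image]
  · apply Finset.sum_congr rfl
    intro c _
    simp
  · intro x _ y _ hxy
    simpa using hxy

theorem ncap (l r : List (ZMod p)) (a b : ZMod p) (D : List Piece) :
    N p ((.cap, l.length) :: D) (l ++ a :: b :: r) = if a = b then N p D (l ++ r) else 0 := by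
  have h := split .cap l [a, b] r D rfl
  have e : l ++ [a, b] ++ r = l ++ a :: b :: r := by simp
  rw [e] at h
  rw [h]
  show ∑ u' ∈ (if a = b then ({[]} : Finset (List (ZMod p))) else ∅), _ = _
  split_ifs
  · simp
  · simp

theorem ncross (s : Bool) (l r : List (ZMod p)) (a b : ZMod p) (D : List Piece) :
    N p ((.cross s, l.length) :: D) (l ++ a :: b :: r) =
      if s then N p D (l ++ (2 * a - b) :: a :: r) else N p D (l ++ b :: (2 * b - a) :: r) := by
  have h := split (.cross s) l [a, b] r D rfl
  have e : l ++ [a, b] ++ r = l ++ a :: b :: r := by simp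
  rw [e] at h
  rw [h]
  show ∑ u' ∈ ({if s then [2 * a - b, a] else [b, 2 * b - a]} : Finset (List (ZMod p))), _ = _
  rw [Finset.sum_singleton]
  split_ifs
  · simp
  · simp

theorem ncup1 (o : Bool) (l r : List (ZMod p)) (x : ZMod p) (D : List Piece) :
    N p ((.cup o, l.length + 1) :: D) (l ++ x :: r) =
      ∑ c : ZMod p, N p D (l ++ x :: c :: c :: r) := by
  have h := ncup o (l ++ [x]) r D
  simpa using h

theorem ncap1 (l r : List (ZMod p)) (x a b : ZMod p) (D : List Piece) :
    N p ((.cap, l.length + 1) :: D) (l ++ x :: a :: b :: r) =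
      if a = b then N p D (l ++ x :: r) else 0 := by
  have h := ncap (l ++ [x]) r a b D
  simpa using h

theorem ncross1 (s : Bool) (l r : List (ZMod p)) (x a b : ZMod p) (D : List Piece) :
    N p ((.cross s, l.length + 1) :: D) (l ++ x :: a :: b :: r) =
      if s then N p D (l ++ x :: (2 * a - b) :: a :: r)
        else N p D (l ++ x :: b :: (2 * b - a) :: r) := by
  have h := ncross s (l ++ [x]) r a b D
  simpa using h

theorem fits {q : Piece} {D : List Piece} {v : List Bool} (h : (runO (q :: D) v).isSome) :
    q.2 + q.1.ar ≤ v.length ∧ ∃ w, stepO q v = some w ∧ (runO D w).isSome := by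
  have h' : ((stepO q v).bind (runO D)).isSome := h
  rcases e : stepO q v with _ | w
  · rw [e] at h'
    exact absurd h' (by simp)
  · refine ⟨?_, w, rfl, ?_⟩
    · unfold stepO at e
      split_ifs at e with h1
      exact h1
    · rw [e] at h'
      exact h'

theorem ori_len {k : Kind} {u w : List Bool} (h : k.ori u = some w) : w.length = k.oar := by
  rcases k with o | _ | s
  · rcases u with _ | ⟨a, u⟩
    · have : some [o, !o] = some w := h
      cases this
      rfl
    · exact absurd h (by simp [Kind.ori])
  · rcases u with _ | ⟨a, _ | ⟨b, _ | ⟨c, u⟩⟩⟩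
    · exact absurd h (by simp [Kind.ori])
    · exact absurd h (by simp [Kind.ori])
    · have h' : (if b = !a then some [] else none) = some w := h
      split_ifs at h'
      cases h'
      rfl
    · exact absurd h (by simp [Kind.ori])
  · rcases u with _ | ⟨a, _ | ⟨b, _ | ⟨c, u⟩⟩⟩
    · exact absurd h (by simp [Kind.ori])
    · exact absurd h (by simp [Kind.ori])
    · have : some [b, a] = some w := h
      cases this
      rfl
    · exact absurd h (by simp [Kind.ori])

theorem step_len {q : Piece} {v w : List Bool} (h : stepO q v = some w) :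
    w.length + q.1.ar = v.length + q.1.oar := by
  have h0 := h
  unfold stepO at h
  split_ifs at h with h1
  obtain ⟨l, u, r, rfl, hl, hu⟩ := dec3 v q.2 q.1.ar h1
  obtain ⟨k, i⟩ := q
  simp only at hl hu
  subst hl
  rw [osplit k l u r hu] at h0
  rw [Option.map_eq_some_iff] at h0
  obtain ⟨u', e1, rfl⟩ := h0
  have h2 := ori_len e1
  simp only [List.length_append]
  omega

theorem col_len {k : Kind} {u u' : List (ZMod p)} (h : u' ∈ k.col p u) : u'.length = k.oar := by
  rcases k with o | _ | s
  · rcases u with _ | ⟨a, u⟩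
    · have h' : u' ∈ Finset.univ.image (fun c : ZMod p => [c, c]) := h
      rw [Finset.mem_image] at h'
      obtain ⟨c, _, rfl⟩ := h'
      rfl
    · exact absurd h (by simp [Kind.col])
  · rcases u with _ | ⟨a, _ | ⟨b, _ | ⟨c, u⟩⟩⟩
    · exact absurd h (by simp [Kind.col])
    · exact absurd h (by simp [Kind.col])
    · have h' : u' ∈ (if a = b then ({[]} : Finset (List (ZMod p))) else ∅) := h
      split_ifs at h'
      · rw [Finset.mem_singleton] at h'
        subst h'
        rfl
      · exact absurd h' (by simp)
    · exact absurd h (by simp [Kind.col])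
  · rcases u with _ | ⟨a, _ | ⟨b, _ | ⟨c, u⟩⟩⟩
    · exact absurd h (by simp [Kind.col])
    · exact absurd h (by simp [Kind.col])
    · have h' : u' ∈ ({if s then [2 * a - b, a] else [b, 2 * b - a]} :
          Finset (List (ZMod p))) := h
      rw [Finset.mem_singleton] at h'
      subst h'
      split_ifs <;> rfl
    · exact absurd h (by simp [Kind.col])

theorem dec1 {α : Type} (v : List α) (i : ℕ) (h : i + 1 ≤ v.length) :
    ∃ l a r, v = l ++ a :: r ∧ l.length = i := by
  obtain ⟨l, u, r, e, hl, hu⟩ := dec3 v i 1 h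
  obtain ⟨a, rfl⟩ := List.length_eq_one_iff.1 hu
  exact ⟨l, a, r, by rw [e]; simp, hl⟩

theorem dec2 {α : Type} (v : List α) (i : ℕ) (h : i + 2 ≤ v.length) :
    ∃ l a b r, v = l ++ a :: b :: r ∧ l.length = i := by
  obtain ⟨l, u, r, e, hl, hu⟩ := dec3 v i 2 h
  obtain ⟨a, b, rfl⟩ := List.length_eq_two.1 hu
  exact ⟨l, a, b, r, by rw [e]; simp, hl⟩

theorem dec33 {α : Type} (v : List α) (i : ℕ) (h : i + 3 ≤ v.length) :
    ∃ l a b c r, v = l ++ a :: b :: c :: r ∧ l.length = i := by
  obtain ⟨l, u, r, e, hl, hu⟩ := dec3 v i 3 h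
  obtain ⟨a, b, c, rfl⟩ := List.length_eq_three.1 hu
  exact ⟨l, a, b, c, r, by rw [e]; simp, hl⟩

theorem p_localB : S_local := by
  intro p _ X Y B os hXY hX hY v hv
  cases hXY with
  | far k1 k2 i d =>
    obtain ⟨f1, w1, s1, g1⟩ := fits hX
    obtain ⟨f2, w2, s2, g2⟩ := fits g1
    have e1 := step_len s1
    simp only at f1 f2 e1
    have hlen : i + (k1.ar + d + k2.ar) ≤ v.length := by omega
    obtain ⟨l, u, r, rfl, hl, hu⟩ := dec3 v i _ hlen
    obtain ⟨u1, t1, t2, rfl, hu1, ht1⟩ := dec3 u 0 k1.ar (by omega)
    rw [List.length_eq_zero_iff] at hu1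
    subst hu1
    obtain ⟨m, u2, t3, rfl, hm, hu2⟩ := dec3 t2 d k2.ar (by
      simp only [List.length_append, List.length_nil] at hu; omega)
    have ht3 : t3 = [] := by
      rw [← List.length_eq_zero_iff]
      simp only [List.length_append, List.length_nil] at hu
      omega
    subst ht3
    subst hl
    have eX : N p ([(k1, l.length), (k2, l.length + k1.oar + d)] ++ B)
        (l ++ ([] ++ t1 ++ (m ++ u2 ++ [])) ++ r) =
        ∑ u1' ∈ k1.col p t1, ∑ u2' ∈ k2.col p u2, N p B (l ++ u1' ++ m ++ u2' ++ r) := by
      have h1 := split k1 l t1 (m ++ u2 ++ r) ((k2, l.length + k1.oar + d) :: B) ht1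
      have e2 : l ++ ([] ++ t1 ++ (m ++ u2 ++ [])) ++ r = l ++ t1 ++ (m ++ u2 ++ r) := by simp
      rw [e2]
      refine h1.trans ?_
      apply Finset.sum_congr rfl
      intro u1' hu1'
      have h2 := split k2 (l ++ u1' ++ m) u2 r B hu2
      have e3 : (l ++ u1' ++ m).length = l.length + k1.oar + d := by
        simp only [List.length_append, col_len hu1', hm]
      rw [e3] at h2
      have e4 : l ++ u1' ++ (m ++ u2 ++ r) = l ++ u1' ++ m ++ u2 ++ r := by simp
      rw [e4]
      exact h2
    have eY : N p ([(k2, l.length + k1.ar + d), (k1, l.length)] ++ B)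
        (l ++ ([] ++ t1 ++ (m ++ u2 ++ [])) ++ r) =
        ∑ u2' ∈ k2.col p u2, ∑ u1' ∈ k1.col p t1, N p B (l ++ u1' ++ m ++ u2' ++ r) := by
      have h1 := split k2 (l ++ t1 ++ m) u2 r ((k1, l.length) :: B) hu2
      have e3 : (l ++ t1 ++ m).length = l.length + k1.ar + d := by
        simp only [List.length_append, ht1, hm]
      rw [e3] at h1
      have e2 : l ++ ([] ++ t1 ++ (m ++ u2 ++ [])) ++ r = l ++ t1 ++ m ++ u2 ++ r := by simp
      rw [e2]
      refine h1.trans ?_
      apply Finset.sum_congr rfl
      intro u2' _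
      have h2 := split k1 l t1 (m ++ u2' ++ r) B ht1
      have e4 : l ++ t1 ++ m ++ u2' ++ r = l ++ t1 ++ (m ++ u2' ++ r) := by simp
      rw [e4]
      refine h2.trans ?_
      apply Finset.sum_congr rfl
      intro u1' _
      congr 1
      simp
    rw [eX, eY, Finset.sum_comm]
  | zigL o i =>
    obtain ⟨f1, w1, s1, g1⟩ := fits hX
    simp only [Kind.ar] at f1
    obtain ⟨l, a, r, rfl, rfl⟩ := dec1 v i (by omega)
    show N p ((.cup o, l.length + 1) :: (.cap, l.length) :: B) (l ++ a :: r) = N p B (l ++ a :: r)
    rw [ncup1]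
    simp only [ncap]
    rw [Finset.sum_ite_eq Finset.univ a]
    simp
  | zigR o i =>
    obtain ⟨f1, w1, s1, g1⟩ := fits hX
    obtain ⟨f2, w2, s2, g2⟩ := fits g1
    have e1 := step_len s1
    simp only [Kind.ar, Kind.oar] at f1 f2 e1
    obtain ⟨l, a, r, rfl, rfl⟩ := dec1 v i (by omega)
    show N p ((.cup o, l.length) :: (.cap, l.length + 1) :: B) (l ++ a :: r) = N p B (l ++ a :: r)
    rw [ncup]
    simp only [ncap1]
    rw [Finset.sum_ite_eq' Finset.univ a]
    simp
  | r1cup o s i =>
    obtain ⟨f1, w1, s1, g1⟩ := fits hX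
    simp only [Kind.ar] at f1
    obtain ⟨l, u, r, rfl, hl, hu⟩ := dec3 v i 0 (by omega)
    rw [List.length_eq_zero_iff] at hu
    subst hu hl
    rw [List.append_nil]
    show N p ((.cup o, l.length) :: (.cross s, l.length) :: B) (l ++ r) =
      N p ((.cup (!o), l.length) :: B) (l ++ r)
    rw [ncup, ncup]
    apply Finset.sum_congr rfl
    intro c _
    rw [ncross]
    have e : 2 * c - c = c := by ring
    rw [e]
    split_ifs <;> rfl
  | r1cap s i =>
    obtain ⟨f1, w1, s1, g1⟩ := fits hX
    simp only [Kind.ar] at f1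
    obtain ⟨l, a, b, r, rfl, rfl⟩ := dec2 v i (by omega)
    show N p ((.cross s, l.length) :: (.cap, l.length) :: B) (l ++ a :: b :: r) =
      N p ((.cap, l.length) :: B) (l ++ a :: b :: r)
    rw [ncross, ncap, ncap, ncap]
    have e1 : 2 * a - b = a ↔ a = b := by
      constructor
      · intro h
        linear_combination h
      · intro h
        linear_combination h
    have e2 : b = 2 * b - a ↔ a = b := by
      constructor
      · intro h
        linear_combination h
      · intro h
        linear_combination h
    simp only [e1, e2, ite_self]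
  | r2 s i =>
    obtain ⟨f1, w1, s1, g1⟩ := fits hX
    simp only [Kind.ar] at f1
    obtain ⟨l, a, b, r, rfl, rfl⟩ := dec2 v i (by omega)
    show N p ((.cross s, l.length) :: (.cross (!s), l.length) :: B) (l ++ a :: b :: r) =
      N p B (l ++ a :: b :: r)
    rw [ncross, ncross, ncross]
    cases s
    · simp
    · simp
  | r3 s i =>
    obtain ⟨f1, w1, s1, g1⟩ := fits hX
    obtain ⟨f2, w2, s2, g2⟩ := fits g1
    have e1 := step_len s1
    simp only [Kind.ar, Kind.oar] at f1 f2 e1
    obtain ⟨l, a, b, c, r, rfl, rfl⟩ := dec33 v i (by omega)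
    show N p ((.cross s, l.length) :: (.cross s, l.length + 1) :: (.cross s, l.length) :: B)
      (l ++ a :: b :: c :: r) =
      N p ((.cross s, l.length + 1) :: (.cross s, l.length) :: (.cross s, l.length + 1) :: B)
      (l ++ a :: b :: c :: r)
    cases s
    · simp only [ncross, ncross1, Bool.false_eq_true, if_false]
      congr 4
      ring
    · simp only [ncross, ncross1, if_true]
      congr 2
      ring
  | slideCup o s i =>
    obtain ⟨f1, w1, s1, g1⟩ := fits hX
    obtain ⟨f2, w2, s2, g2⟩ := fits g1
    have e1 := step_len s1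
    simp only [Kind.ar, Kind.oar] at f1 f2 e1
    obtain ⟨l, a, r, rfl, rfl⟩ := dec1 v i (by omega)
    show N p ((.cup o, l.length) :: (.cross s, l.length + 1) :: B) (l ++ a :: r) =
      N p ((.cup o, l.length + 1) :: (.cross (!s), l.length) :: B) (l ++ a :: r)
    rw [ncup, ncup1]
    cases s
    · simp only [ncross1, ncross, Bool.false_eq_true, if_false, Bool.not_false, if_true]
      apply Fintype.sum_equiv (Equiv.subLeft (2 * a))
      intro c
      rw [Equiv.subLeft_apply]
      congr 2
      ring
    · simp only [ncross1, ncross, if_true, Bool.not_true, Bool.false_eq_true, if_false]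
  | slideCap s i =>
    obtain ⟨f1, w1, s1, g1⟩ := fits hX
    obtain ⟨f2, w2, s2, g2⟩ := fits g1
    have e1 := step_len s1
    simp only [Kind.ar, Kind.oar] at f1 f2 e1
    obtain ⟨l, a, b, c, r, rfl, rfl⟩ := dec33 v i (by omega)
    show N p ((.cross s, l.length) :: (.cap, l.length + 1) :: B) (l ++ a :: b :: c :: r) =
      N p ((.cross (!s), l.length + 1) :: (.cap, l.length) :: B) (l ++ a :: b :: c :: r)
    rw [ncross, ncross1]
    cases s
    · simp only [ncap1, ncap, Bool.false_eq_true, if_false, Bool.not_false, if_true]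
      have e : 2 * b - a = c ↔ a = 2 * b - c := by
        constructor
        · intro h
          linear_combination -h
        · intro h
          linear_combination -h
      simp only [e]
    · simp only [ncap1, ncap, if_true, Bool.not_true, Bool.false_eq_true, if_false]
      by_cases h : a = c
      · subst h
        rfl
      · simp only [h, if_false]

end LB

end Pool.BraidIndex
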