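import Pool.Agent.Work.MP_9d4fac_gt.Interface

set_option autoImplicit false

namespace Pool.BraidIndex

open Finset

theorem p_bdd : S_bdd := by
  intro D
  refine ⟨D.length, ?_⟩
  rintro n ⟨X, ⟨h, -⟩, rfl⟩
  have h1 : X ⊆ Finset.range D.length := by
    intro t ht
    obtain ⟨s, i, e⟩ := h t ht
    rw [Finset.mem_range]
    by_contra hn
    rw [List.getElem?_eq_none (not_lt.1 hn)] at e
    exact absurd e (by simp)
  simpa using Finset.card_le_card h1

end Pool.BraidIndex
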