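import Pool.Agent.Work.MP_9d4fac_gt.Interface

set_option autoImplicit false

namespace Pool.BraidIndex

open Finset

/-- the number of cups -/
def cups : List Piece → ℕ
  | [] => 0
  | (Kind.cup _, _) :: D => cups D + 1
  | _ :: D => cups D

theorem card_col_le (p : ℕ) [NeZero p] (k : Kind) (u : List (ZMod p)) :
    (k.col p u).card ≤ (match k with | .cup _ => p | _ => 1) := by
  rcases k with o | _ | s
  · rcases u with _ | ⟨a, u⟩
    · refine (Finset.card_image_le).trans ?_
      rw [Finset.card_univ, ZMod.card]
    · exact (Finset.card_empty (α := List (ZMod p))).le.trans (Nat.zero_le _)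
  · rcases u with _ | ⟨a, _ | ⟨b, _ | ⟨c, u⟩⟩⟩
    · exact (Finset.card_empty (α := List (ZMod p))).le.trans (Nat.zero_le _)
    · exact (Finset.card_empty (α := List (ZMod p))).le.trans (Nat.zero_le _)
    · show (if a = b then ({[]} : Finset (List (ZMod p))) else ∅).card ≤ 1
      split_ifs
      · simp
      · simp
    · exact (Finset.card_empty (α := List (ZMod p))).le.trans (Nat.zero_le _)
  · rcases u with _ | ⟨a, _ | ⟨b, _ | ⟨c, u⟩⟩⟩
    · exact (Finset.card_empty (α := List (ZMod p))).le.trans (Nat.zero_le _)
    · exact (Finset.card_empty (α := List (ZMod p))).le.trans (Nat.zero_le _)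
    · exact (Finset.card_singleton _).le
    · exact (Finset.card_empty (α := List (ZMod p))).le.trans (Nat.zero_le _)

theorem card_act_le (p : ℕ) [NeZero p] (q : Piece) (v : List (ZMod p)) :
    (act p q v).card ≤ (match q.1 with | .cup _ => p | _ => 1) := by
  unfold act
  split_ifs
  · exact Finset.card_image_le.trans (card_col_le p q.1 _)
  · exact (Finset.card_empty (α := List (ZMod p))).le.trans (Nat.zero_le _)

theorem N_le_cups (p : ℕ) [NeZero p] (D : List Piece) : ∀ v : List (ZMod p),
    N p D v ≤ p ^ cups D := by
  induction D with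
  | nil =>
    intro v
    show (if v = [] then 1 else 0) ≤ p ^ 0
    split_ifs <;> simp
  | cons q D ih =>
    intro v
    show ∑ v' ∈ act p q v, N p D v' ≤ _
    have h1 : ∑ v' ∈ act p q v, N p D v' ≤ (act p q v).card * p ^ cups D := by
      refine (Finset.sum_le_card_nsmul _ _ _ fun v' _ => ih v').trans ?_
      rw [smul_eq_mul]
    refine h1.trans ?_
    have h2 := card_act_le p q v
    obtain ⟨k, i⟩ := q
    rcases k with o | _ | s
    · show _ ≤ p ^ (cups D + 1)
      rw [pow_succ, mul_comm]
      exact Nat.mul_le_mul_left _ h2
    · show _ ≤ p ^ (cups D)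
      refine (Nat.mul_le_mul_right _ h2).trans ?_
      rw [one_mul]
    · show _ ≤ p ^ (cups D)
      refine (Nat.mul_le_mul_right _ h2).trans ?_
      rw [one_mul]

theorem cups_append (D E : List Piece) : cups (D ++ E) = cups D + cups E := by
  induction D with
  | nil => simp [cups]
  | cons q D ih =>
    obtain ⟨k, i⟩ := q
    rcases k with o | _ | s
    · show cups (D ++ E) + 1 = cups D + 1 + cups E
      rw [ih]
      ring
    · exact ih
    · exact ih

theorem cups_cross (w : List (ℕ × Bool)) : cups (w.map fun x => (Kind.cross x.2, x.1)) = 0 := by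
  induction w with
  | nil => rfl
  | cons q w ih => exact ih

theorem cups_cap (l : List ℕ) : cups (l.map fun j => (Kind.cap, j)) = 0 := by
  induction l with
  | nil => rfl
  | cons q w ih => exact ih

theorem cups_cup (l : List ℕ) : cups (l.map fun j => (Kind.cup true, j)) = l.length := by
  induction l with
  | nil => rfl
  | cons q w ih =>
    show cups (w.map fun j => (Kind.cup true, j)) + 1 = w.length + 1
    rw [ih]

theorem p_braid : S_braid := by
  intro p _ n w
  refine (N_le_cups p _ _).trans (le_of_eq ?_)
  unfold braidClosure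
  rw [cups_append, cups_append, cups_cross, cups_cap, cups_cup, List.length_range, add_zero, add_zero]

end Pool.BraidIndex
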