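import Pool.Agent.Work.MP_9d4fac_gt.Interface

set_option autoImplicit false

namespace Pool.BraidIndex

open Finset

/-- one more condition divides the number by at most `p` -/
theorem count_step (p : ℕ) [NeZero p] {ι : Type} [Finite ι] (S : AddSubgroup (ι → ZMod p)) (x y : ι) :
    Nat.card S ≤ p * Nat.card {f : ι → ZMod p // f ∈ S ∧ f x = f y} := by
  classical
  -- the map `f ↦ f x - f y` on `S`
  set φ : S →+ ZMod p :=
    { toFun := fun f => (f : ι → ZMod p) x - (f : ι → ZMod p) y
      map_zero' := by simp
      map_add' := fun f g => by simp; ring } with hφ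
  have h1 : Nat.card φ.ker * Nat.card φ.range = Nat.card S := by
    rw [← AddSubgroup.card_mul_index φ.ker, AddSubgroup.index_ker]
  have h2 : Nat.card φ.range ≤ p := by
    have := Nat.card_le_card_of_injective (fun a : φ.range => (a : ZMod p)) Subtype.val_injective
    rwa [Nat.card_zmod] at this
  have h3 : Nat.card φ.ker ≤ Nat.card {f : ι → ZMod p // f ∈ S ∧ f x = f y} := by
    refine Nat.card_le_card_of_injective
      (fun a : φ.ker => (⟨((a : S) : ι → ZMod p), (a : S).2, ?_⟩ :
        {f : ι → ZMod p // f ∈ S ∧ f x = f y})) ?_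
    · have h := a.2
      rw [AddMonoidHom.mem_ker] at h
      exact sub_eq_zero.1 h
    · intro a b hab
      exact Subtype.ext (Subtype.ext (congrArg (fun c : {f : ι → ZMod p // f ∈ S ∧ f x = f y} => c.1) hab))
  calc Nat.card S = Nat.card φ.ker * Nat.card φ.range := h1.symm
    _ ≤ Nat.card {f : ι → ZMod p // f ∈ S ∧ f x = f y} * p := Nat.mul_le_mul h3 h2
    _ = _ := mul_comm _ _

theorem p_count : S_count := by
  intro p _ ι _ X a b
  classical
  induction X using Finset.induction_on with
  | empty =>
    have h : Nat.card {f : ι → ZMod p // ∀ t ∈ (∅ : Finset ℕ), f (a t) = f (b t)} =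
        Nat.card (ι → ZMod p) := by
      apply Nat.card_congr
      exact Equiv.subtypeUnivEquiv (fun f => by simp)
    rw [h, Finset.card_empty, pow_zero, one_mul]
    have := Fintype.ofFinite ι
    rw [Nat.card_fun, Nat.card_zmod]
  | insert t X ht ih =>
    set S : AddSubgroup (ι → ZMod p) :=
      { carrier := {f | ∀ t ∈ X, f (a t) = f (b t)}
        zero_mem' := fun t _ => rfl
        add_mem' := fun {f g} hf hg t ht => by
          simp only [Pi.add_apply]
          rw [hf t ht, hg t ht]
        neg_mem' := fun {f} hf t ht => by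
          simp only [Pi.neg_apply]
          rw [hf t ht] } with hS
    have h1 : Nat.card S = Nat.card {f : ι → ZMod p // ∀ t ∈ X, f (a t) = f (b t)} := rfl
    have h2 := count_step p S (a t) (b t)
    have h3 : Nat.card {f : ι → ZMod p // f ∈ S ∧ f (a t) = f (b t)} =
        Nat.card {f : ι → ZMod p // ∀ s ∈ insert t X, f (a s) = f (b s)} := by
      apply Nat.card_congr
      apply Equiv.subtypeEquivRight
      intro f
      rw [Finset.forall_mem_insert]
      exact and_comm
    rw [h3, h1] at h2
    rw [Finset.card_insert_of_notMem ht, pow_succ, mul_assoc]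
    exact ih.trans (Nat.mul_le_mul_left _ h2)

end Pool.BraidIndex
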