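import Pool.Agent.Work.MP_9d4fac_gt.Lower
import Pool.Agent.Work.MP_9d4fac_gt.S_count

/-!
# Good functions from functions on the Seifert circles
-/

set_option autoImplicit false

namespace Pool.BraidIndex

open Finset

namespace Glue

instance finite_point (D : List Piece) : Finite (Point D) := by
  let M : ℕ := ∑ t ∈ range (D.length + 1), (ori D t).length
  have h : ∀ q : Point D, q.1.1 < D.length + 1 ∧ q.1.2 < M + 1 := by
    intro q
    refine ⟨Nat.lt_succ_of_le q.2.1, ?_⟩
    have h1 : (ori D q.1.1).length ≤ M :=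
      Finset.single_le_sum (f := fun t => (ori D t).length) (fun _ _ => Nat.zero_le _)
        (Finset.mem_range.2 (Nat.lt_succ_of_le q.2.1))
    have h2 := q.2.2
    omega
  refine Finite.of_injective (fun q : Point D =>
    ((⟨q.1.1, (h q).1⟩, ⟨q.1.2, (h q).2⟩) : Fin (D.length + 1) × Fin (M + 1))) ?_
  intro a b hab
  simp only [Prod.mk.injEq, Fin.mk.injEq] at hab
  exact Subtype.ext (Prod.ext hab.1 hab.2)

instance finite_circle (D : List Piece) : Finite (Circle D) := Quotient.finite _

/-- a point -/
def mkP {D : List Piece} {q : ℕ × ℕ} (h : InR D q) : Point D := ⟨q, h⟩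

open Classical in
/-- the circle of a point (a fixed circle for pairs which are not points) -/
noncomputable def circ {D : List Piece} (c0 : Circle D) (q : ℕ × ℕ) : Circle D :=
  if h : InR D q then Quotient.mk (circleSetoid D) (mkP h) else c0

theorem circ_smooth {D : List Piece} (c0 : Circle D) {a b : ℕ × ℕ} (ha : InR D a) (hb : InR D b)
    (h : Smooth D a b) : circ c0 a = circ c0 b := by
  rw [circ, circ, dif_pos ha, dif_pos hb]
  exact Quotient.sound (Relation.EqvGen.rel _ _ h)

open Classical in
/-- the function on pairs -/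
noncomputable def lift {p : ℕ} {D : List Piece} (c0 : Circle D) (g : Circle D → ZMod p)
    (q : ℕ × ℕ) : ZMod p := if InR D q then g (circ c0 q) else 0

theorem lift_inj {p : ℕ} {D : List Piece} (c0 : Circle D) :
    Function.Injective (lift (p := p) c0) := by
  intro g g' h
  funext c
  obtain ⟨q, rfl⟩ := Quotient.exists_rep c
  have h1 := congrFun h q.1
  have h2 : InR D q.1 := q.2
  have h3 : circ c0 q.1 = Quotient.mk (circleSetoid D) q := by
    rw [circ, dif_pos h2]
    rfl
  rw [lift, lift, if_pos h2, if_pos h2, h3] at h1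
  exact h1

open Classical in
/-- the other end of the crossing -/
noncomputable def oth (D : List Piece) (t : ℕ) : ℕ × ℕ :=
  match D[t]? with
  | some (_, i) => if Par D t i then (t, i + 1) else (t + 1, i)
  | none => (0, 0)

/-- the first end of the crossing -/
def fst (D : List Piece) (t : ℕ) : ℕ × ℕ :=
  match D[t]? with
  | some (_, i) => (t, i)
  | none => (0, 0)

theorem good_lift {p : ℕ} {D : List Piece} (hD : IsDiagram D) (c0 : Circle D) (X : Finset ℕ)
    (g : Circle D → ZMod p) (hg : ∀ t ∈ X, g (circ c0 (fst D t)) = g (circ c0 (oth D t))) :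
    Good D X (lift c0 g) := by
  classical
  refine ⟨?_, ?_, ?_⟩
  · intro a b ha hb hab
    rw [lift, lift, if_pos ha, if_pos hb, circ_smooth c0 ha hb hab]
  · intro q hq
    rw [lift, if_neg hq]
  · intro t ht s i h
    obtain ⟨h0, m, h1, h2⟩ := Lower.len_step hD h
    simp only [Kind.ar] at h1
    simp only [Kind.oar] at h2
    have r1 : InR D (t, i) := ⟨by simp only; omega, by simp only; omega⟩
    have r2 : InR D (t, i + 1) := ⟨by simp only; omega, by simp only; omega⟩
    have r3 : InR D (t + 1, i) := ⟨by simp only; omega, by simp only; omega⟩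
    have e := hg t ht
    have ef : fst D t = (t, i) := by rw [fst, h]
    rw [lift, lift, lift, if_pos r1, if_pos r2, if_pos r3]
    by_cases hp : Par D t i
    · have eo : oth D t = (t, i + 1) := by
        rw [oth, h]
        exact if_pos hp
      rw [ef, eo] at e
      exact ⟨e, by rw [circ_smooth c0 r1 r3 (Smooth.par0 t i s h hp)]⟩
    · have eo : oth D t = (t + 1, i) := by
        rw [oth, h]
        exact if_neg hp
      rw [ef, eo] at e
      exact ⟨by rw [circ_smooth c0 r1 r2 (Smooth.anti0 t i s h hp)], e⟩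

end Glue

/-- there are many good functions -/
theorem p_glue (p : ℕ) [NeZero p] (D : List Piece) (X : Finset ℕ) (hD : IsDiagram D) :
    ∃ F : Finset (ℕ × ℕ → ZMod p), (∀ f ∈ F, Good D X f) ∧
      p ^ circles D ≤ p ^ X.card * F.card := by
  classical
  rcases isEmpty_or_nonempty (Circle D) with hE | ⟨⟨c0⟩⟩
  · refine ⟨{fun _ => 0}, ?_, ?_⟩
    · intro f hf
      rw [Finset.mem_singleton] at hf
      subst hf
      exact ⟨fun _ _ _ _ _ => rfl, fun _ _ => rfl, fun _ _ _ _ _ => ⟨rfl, rfl⟩⟩
    · rw [circles, Nat.card_of_isEmpty, pow_zero, Finset.card_singleton, mul_one]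
      exact Nat.one_le_pow _ _ (Nat.pos_of_ne_zero (NeZero.ne p))
  · let S : Set (Circle D → ZMod p) :=
      {g | ∀ t ∈ X, g (Glue.circ c0 (Glue.fst D t)) = g (Glue.circ c0 (Glue.oth D t))}
    have hS : S.Finite := Set.toFinite S
    refine ⟨hS.toFinset.image (Glue.lift c0), ?_, ?_⟩
    · intro f hf
      rw [Finset.mem_image] at hf
      obtain ⟨g, hg, rfl⟩ := hf
      rw [Set.Finite.mem_toFinset] at hg
      exact Glue.good_lift hD c0 X g hg
    · rw [Finset.card_image_of_injective _ (Glue.lift_inj c0)]
      have h := p_count p (Circle D) X (fun t => Glue.circ c0 (Glue.fst D t))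
        (fun t => Glue.circ c0 (Glue.oth D t))
      have h2 : Nat.card {g : Circle D → ZMod p // ∀ t ∈ X,
          g (Glue.circ c0 (Glue.fst D t)) = g (Glue.circ c0 (Glue.oth D t))} =
          hS.toFinset.card := by
        rw [← Set.ncard_eq_toFinset_card S hS]
        rfl
      rw [h2] at h
      exact h

/-- the lower bound -/
theorem glue_bound (hrow : S_row) (hiso : S_isotopic) (hbraid : S_braid) {p : ℕ} (hp : 2 ≤ p)
    {D : List Piece} {X : Finset ℕ} (hD : IsDiagram D) (hR : Rows p X 0 D)
    (hpar : ∀ t s i, D[t]? = some (.cross s, i) → t ∉ X → Par D t i) (n : ℕ) (w : List (ℕ × Bool))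
    (hDw : Isotopic D (braidClosure n w)) : circles D ≤ X.card + n := by
  have : NeZero p := ⟨by omega⟩
  obtain ⟨F, hF, hc⟩ := p_glue p D X hD
  have h1 := p_lower hrow p D X hD hR hpar F hF
  have h2 := hiso p D _ hDw
  have h3 := hbraid p n w
  have h4 : p ^ circles D ≤ p ^ (X.card + n) := by
    rw [pow_add]
    exact hc.trans (Nat.mul_le_mul_left _ (h1.trans (h2.le.trans h3)))
  exact (Nat.pow_le_pow_iff_right (by omega)).1 h4

end Pool.BraidIndex

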