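import Mathlib

/-!
# Oriented link diagrams in Morse position, Seifert graph, cycle index, closed braids

An oriented link diagram in general position with respect to the height function is read from top to bottom as a list of
elementary pieces: cups (a pair of neighbouring strands is born), caps (a pair of neighbouring strands dies) and crossings of two
neighbouring strands. A piece is given by its kind and the number of strands to its left.
-/

set_option autoImplicit false

namespace Pool.BraidIndex

/-- The elementary pieces. `cup o`: two strands are born, the left one with orientation `o` (`true` = downwards), the right one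
with the opposite orientation. `cap`: two neighbouring strands are joined. `cross s`: two neighbouring strands cross; for
`s = true` the strand which goes from left to right (top to bottom) is the over strand, for `s = false` the other one. -/
inductive Kind
  | cup (o : Bool)
  | cap
  | cross (s : Bool)
  deriving DecidableEq

/-- number of strands a piece takes -/
def Kind.ar : Kind → ℕ
  | .cup _ => 0
  | .cap => 2
  | .cross _ => 2

/-- number of strands a piece leaves -/
def Kind.oar : Kind → ℕ
  | .cup _ => 2
  | .cap => 0
  | .cross _ => 2

/-- a piece: its kind and the number of strands on its left -/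
abbrev Piece := Kind × ℕ

/-- the orientations of the strands which leave a piece; `none` if the piece does not fit -/
def Kind.ori : Kind → List Bool → Option (List Bool)
  | .cup o, [] => some [o, !o]
  | .cap, [x, y] => if y = !x then some [] else none
  | .cross _, [x, y] => some [y, x]
  | _, _ => none

/-- the orientations of all strands after a piece -/
def stepO (q : Piece) (v : List Bool) : Option (List Bool) :=
  if q.2 + q.1.ar ≤ v.length then
    (q.1.ori ((v.drop q.2).take q.1.ar)).map fun u => v.take q.2 ++ u ++ v.drop (q.2 + q.1.ar)
  else none

/-- the orientations of all strands after a list of pieces -/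
def runO : List Piece → List Bool → Option (List Bool)
  | [], v => some v
  | q :: D, v => (stepO q v).bind (runO D)

/-- a list of pieces is an oriented link diagram: it starts and ends without strands and all orientations fit -/
def IsDiagram (D : List Piece) : Prop := runO D [] = some []

/-- the orientations of the strands at level `t` -/
def ori (D : List Piece) (t : ℕ) : List Bool := (runO (D.take t) []).getD []

/-! ### Isotopy of links: planar isotopy and Reidemeister moves of diagrams in Morse position -/

/-- The local moves: distant pieces commute, zigzags are straightened, the three Reidemeister moves, and a strand slides over or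
under a cup or a cap. -/
inductive Local : List Piece → List Piece → Prop
  | far (k1 k2 : Kind) (i d : ℕ) :
      Local [(k1, i), (k2, i + k1.oar + d)] [(k2, i + k1.ar + d), (k1, i)]
  | zigL (o : Bool) (i : ℕ) : Local [(.cup o, i + 1), (.cap, i)] []
  | zigR (o : Bool) (i : ℕ) : Local [(.cup o, i), (.cap, i + 1)] []
  | r1cup (o s : Bool) (i : ℕ) : Local [(.cup o, i), (.cross s, i)] [(.cup (!o), i)]
  | r1cap (s : Bool) (i : ℕ) : Local [(.cross s, i), (.cap, i)] [(.cap, i)]
  | r2 (s : Bool) (i : ℕ) : Local [(.cross s, i), (.cross (!s), i)] []
  | r3 (s : Bool) (i : ℕ) :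
      Local [(.cross s, i), (.cross s, i + 1), (.cross s, i)] [(.cross s, i + 1), (.cross s, i), (.cross s, i + 1)]
  | slideCup (o s : Bool) (i : ℕ) : Local [(.cup o, i), (.cross s, i + 1)] [(.cup o, i + 1), (.cross (!s), i)]
  | slideCap (s : Bool) (i : ℕ) : Local [(.cross s, i), (.cap, i + 1)] [(.cross (!s), i + 1), (.cap, i)]

/-- one local move inside a diagram -/
def Move (D D' : List Piece) : Prop :=
  IsDiagram D ∧ IsDiagram D' ∧ ∃ A X Y B, Local X Y ∧ D = A ++ X ++ B ∧ D' = A ++ Y ++ B

/-- the diagrams represent isotopic oriented links -/
def Isotopic (D D' : List Piece) : Prop := Relation.EqvGen Move D D'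

/-! ### Closed braids -/

/-- the standard diagram of the closure of the braid word `w` on `n` strands; the letter `(i, s)` is a crossing of the strands
number `i` and `i + 1` (counted from `0`) -/
def braidClosure (n : ℕ) (w : List (ℕ × Bool)) : List Piece :=
  (List.range n).map (fun j => (Kind.cup true, j)) ++ w.map (fun x => (Kind.cross x.2, x.1)) ++
    (List.range n).reverse.map (fun j => (Kind.cap, j))

/-- all letters of `w` are generators of the braid group on `n` strands -/
def IsBraidWord (n : ℕ) (w : List (ℕ × Bool)) : Prop := ∀ x ∈ w, x.1 + 1 < n

/-! ### Seifert circles and Seifert graph -/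

/-- the points of a diagram: level `t`, strand number `j` -/
def Point (D : List Piece) : Type := {q : ℕ × ℕ // q.1 ≤ D.length ∧ q.2 < (ori D q.1).length}

/-- the two crossing strands run in the same direction -/
def Par (D : List Piece) (t i : ℕ) : Prop := (ori D t)[i]? = (ori D t)[i + 1]?

/-- Neighbouring points after all crossings have been smoothed in the orientation respecting way. -/
inductive Smooth (D : List Piece) : ℕ × ℕ → ℕ × ℕ → Prop
  | left (t j i : ℕ) (k : Kind) : D[t]? = some (k, i) → j < i → Smooth D (t, j) (t + 1, j)
  | right (t j i : ℕ) (k : Kind) : D[t]? = some (k, i) → Smooth D (t, i + k.ar + j) (t + 1, i + k.oar + j)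
  | cup (t i : ℕ) (o : Bool) : D[t]? = some (.cup o, i) → Smooth D (t + 1, i) (t + 1, i + 1)
  | cap (t i : ℕ) : D[t]? = some (.cap, i) → Smooth D (t, i) (t, i + 1)
  | par0 (t i : ℕ) (s : Bool) : D[t]? = some (.cross s, i) → Par D t i → Smooth D (t, i) (t + 1, i)
  | par1 (t i : ℕ) (s : Bool) : D[t]? = some (.cross s, i) → Par D t i → Smooth D (t, i + 1) (t + 1, i + 1)
  | anti0 (t i : ℕ) (s : Bool) : D[t]? = some (.cross s, i) → ¬ Par D t i → Smooth D (t, i) (t, i + 1)
  | anti1 (t i : ℕ) (s : Bool) : D[t]? = some (.cross s, i) → ¬ Par D t i → Smooth D (t + 1, i) (t + 1, i + 1)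

/-- lying on one Seifert circle -/
def circleSetoid (D : List Piece) : Setoid (Point D) := Relation.EqvGen.setoid fun a b => Smooth D a.1 b.1

/-- the Seifert circles, the vertices of the Seifert graph -/
def Circle (D : List Piece) : Type := Quotient (circleSetoid D)

/-- the number of Seifert circles -/
noncomputable def circles (D : List Piece) : ℕ := Nat.card (Circle D)

/-- `t` is the number of a crossing; the crossings are the edges of the Seifert graph -/
def IsCrossing (D : List Piece) (t : ℕ) : Prop := ∃ (s : Bool) (i : ℕ), D[t]? = some (.cross s, i)

open Classical in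
/-- the crossing number `t` joins the Seifert circles `a` and `b`: these are the circles of the points `(t, i)`, `(t, i + 1)` if
the strands are parallel, of `(t, i)`, `(t + 1, i)` otherwise -/
def Joins (D : List Piece) (t : ℕ) (a b : Circle D) : Prop :=
  ∃ (s : Bool) (i : ℕ) (x y : Point D), D[t]? = some (.cross s, i) ∧ x.1 = (t, i) ∧
    y.1 = (if Par D t i then (t, i + 1) else (t + 1, i)) ∧
    ((a = Quotient.mk _ x ∧ b = Quotient.mk _ y) ∨ (a = Quotient.mk _ y ∧ b = Quotient.mk _ x))

/-- `C` is a circuit of the Seifert graph: the set of edges of a cycle of length `m ≥ 2` (two parallel edges for `m = 2`) -/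
def IsCircuit (D : List Piece) (C : Finset ℕ) : Prop :=
  ∃ (m : ℕ) (v : ZMod m → Circle D) (e : ZMod m → ℕ), 2 ≤ m ∧ Function.Injective v ∧ Function.Injective e ∧
    (∀ j, Joins D (e j) (v j) (v (j + 1))) ∧ (C : Set ℕ) = Set.range e

/-- `X` is a set of crossings which contains less than half of every circuit -/
def Admissible (D : List Piece) (X : Finset ℕ) : Prop :=
  (∀ t ∈ X, IsCrossing D t) ∧ ∀ C, IsCircuit D C → 2 * (X ∩ C).card < C.card

/-- the cycle index of the Seifert graph -/
noncomputable def ind (D : List Piece) : ℕ := sSup {n | ∃ X, Admissible D X ∧ X.card = n}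

/-- The crossings of the list (which starts at level `t`) which are not in `X` come in rows of consecutive equal crossings, the
number of crossings of every row is a multiple of `p`. -/
inductive Rows (p : ℕ) (X : Finset ℕ) : ℕ → List Piece → Prop
  | nil (t : ℕ) : Rows p X t []
  | cup (t i : ℕ) (o : Bool) (D : List Piece) : Rows p X (t + 1) D → Rows p X t ((.cup o, i) :: D)
  | cap (t i : ℕ) (D : List Piece) : Rows p X (t + 1) D → Rows p X t ((.cap, i) :: D)
  | single (t i : ℕ) (s : Bool) (D : List Piece) : t ∈ X → Rows p X (t + 1) D → Rows p X t ((.cross s, i) :: D)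
  | row (t i m : ℕ) (s : Bool) (D : List Piece) : Rows p X (t + p * m) D →
      Rows p X t (List.replicate (p * m) (.cross s, i) ++ D)

/-! ### Colourings -/

section
variable (p : ℕ) [NeZero p]

/-- the possible colours of the strands which leave a piece -/
def Kind.col : Kind → List (ZMod p) → Finset (List (ZMod p))
  | .cup _, [] => Finset.univ.image fun c => [c, c]
  | .cap, [a, b] => if a = b then {[]} else ∅
  | .cross s, [a, b] => {if s then [2 * a - b, a] else [b, 2 * b - a]}
  | _, _ => ∅

/-- the possible colours of all strands after a piece -/
def act (q : Piece) (v : List (ZMod p)) : Finset (List (ZMod p)) :=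
  if q.2 + q.1.ar ≤ v.length then
    (q.1.col p ((v.drop q.2).take q.1.ar)).image fun u => v.take q.2 ++ u ++ v.drop (q.2 + q.1.ar)
  else ∅

/-- the number of Fox `p`-colourings of a list of pieces which start with the colours `v` and end without strands -/
def N : List Piece → List (ZMod p) → ℕ
  | [], v => if v = [] then 1 else 0
  | q :: D, v => ∑ v' ∈ act p q v, N D v'

end

end Pool.BraidIndex
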