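import Pool.Agent.Work.MP_9d4fac_gt.Def

set_option autoImplicit false

namespace Pool.BraidIndex

open Finset

/-- step of `N` at a decomposed word -/
def S_split : Prop := ∀ (p : ℕ) [NeZero p] (k : Kind) (l u r : List (ZMod p)) (D : List Piece), u.length = k.ar →
  N p ((k, l.length) :: D) (l ++ u ++ r) = ∑ u' ∈ k.col p u, N p D (l ++ u' ++ r)

/-- the same for the orientations -/
def S_osplit : Prop := ∀ (k : Kind) (l u r : List Bool), u.length = k.ar →
  stepO (k, l.length) (l ++ u ++ r) = (k.ori u).map fun u' => l ++ u' ++ r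

/-- A1: local moves do not change the number of colourings -/
def S_local : Prop := ∀ (p : ℕ) [NeZero p] (X Y B : List Piece) (os : List Bool), Local X Y →
  (runO (X ++ B) os).isSome → (runO (Y ++ B) os).isSome → ∀ v : List (ZMod p), v.length = os.length →
    N p (X ++ B) v = N p (Y ++ B) v

/-- A2: moves in context -/
def S_isotopic : Prop := ∀ (p : ℕ) [NeZero p] (D D' : List Piece), Isotopic D D' → N p D [] = N p D' []

/-- B: colourings of a closed braid -/
def S_braid : Prop := ∀ (p : ℕ) [NeZero p] (n : ℕ) (w : List (ℕ × Bool)), N p (braidClosure n w) [] ≤ p ^ n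

/-- C: a row of `p * m` crossings does nothing -/
def S_row : Prop := ∀ (p : ℕ) [NeZero p] (i m : ℕ) (s : Bool) (B : List Piece) (v : List (ZMod p)), i + 2 ≤ v.length →
  N p (List.replicate (p * m) (.cross s, i) ++ B) v = N p B v

/-- E: counting functions which agree on `X` pairs -/
def S_count : Prop := ∀ (p : ℕ) [NeZero p] (ι : Type) [Finite ι] (X : Finset ℕ) (a b : ℕ → ι),
  p ^ (Nat.card ι) ≤ p ^ X.card * Nat.card {f : ι → ZMod p // ∀ t ∈ X, f (a t) = f (b t)}

/-- the colours of level `t` -/
noncomputable def lev {p : ℕ} (D : List Piece) (f : ℕ × ℕ → ZMod p) (t : ℕ) : List (ZMod p) :=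
  (List.range (ori D t).length).map fun j => f (t, j)

/-- `q` is a point of `D` -/
def InR (D : List Piece) (q : ℕ × ℕ) : Prop := q.1 ≤ D.length ∧ q.2 < (ori D q.1).length

/-- functions on the points which are constant on the Seifert circles and agree at the crossings in `X` -/
def Good {p : ℕ} (D : List Piece) (X : Finset ℕ) (f : ℕ × ℕ → ZMod p) : Prop :=
  (∀ a b, InR D a → InR D b → Smooth D a b → f a = f b) ∧ (∀ q, ¬ InR D q → f q = 0) ∧
  ∀ t ∈ X, ∀ s i, D[t]? = some (.cross s, i) → f (t, i) = f (t, i + 1) ∧ f (t, i) = f (t + 1, i)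

/-- D: lower bound for the number of colourings -/
def S_lower : Prop := ∀ (p : ℕ) [NeZero p] (D : List Piece) (X : Finset ℕ), IsDiagram D → Rows p X 0 D →
  (∀ t s i, D[t]? = some (.cross s, i) → t ∉ X → Par D t i) →
  ∀ F : Finset (ℕ × ℕ → ZMod p), (∀ f ∈ F, Good D X f) → F.card ≤ N p D []

/-- the set of values of the cycle index is bounded -/
def S_bdd : Prop := ∀ D : List Piece, BddAbove {n | ∃ X, Admissible D X ∧ X.card = n}

end Pool.BraidIndex
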