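import Pool.Agent.Work.MP_9d4fac_gt.Split

set_option autoImplicit false

namespace Pool.BraidIndex

open Finset

variable (p : ℕ) [NeZero p]

/-- a step with the number of strands on the left given by an equation -/
theorem N_at (k : Kind) (i : ℕ) (l u r v : List (ZMod p)) (D : List Piece) (hl : l.length = i) (hu : u.length = k.ar)
    (hv : v = l ++ u ++ r) : N p ((k, i) :: D) v = ∑ u' ∈ k.col p u, N p D (l ++ u' ++ r) := by
  subst hl; subst hv
  exact p_split p k l u r D hu

theorem col_len {k : Kind} {u u' : List (ZMod p)} (hu : u.length = k.ar) (h : u' ∈ k.col p u) : u'.length = k.oar := by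
  cases k with
  | cup o =>
    have : u = [] := List.length_eq_zero_iff.1 hu
    subst this
    simp only [Kind.col, Finset.mem_image, Finset.mem_univ, true_and] at h
    obtain ⟨c, rfl⟩ := h
    rfl
  | cap =>
    obtain ⟨a, b, rfl⟩ := len2 hu
    simp only [Kind.col] at h
    split_ifs at h with h6
    · simp only [Finset.mem_singleton] at h
      subst h; rfl
    · simp at h
  | cross s =>
    obtain ⟨a, b, rfl⟩ := len2 hu
    simp only [Kind.col, Finset.mem_singleton] at h
    subst h
    split_ifs <;> rfl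

theorem N_cross (s : Bool) (i : ℕ) (l r : List (ZMod p)) (a b : ZMod p) (D : List Piece) (hl : l.length = i) :
    N p ((.cross s, i) :: D) (l ++ a :: b :: r) =
      N p D (l ++ (if s then 2 * a - b else b) :: (if s then a else 2 * b - a) :: r) := by
  rw [N_at p (.cross s) i l [a, b] r _ D hl rfl (by simp)]
  cases s <;> simp [Kind.col]

theorem N_cup (o : Bool) (i : ℕ) (l r : List (ZMod p)) (D : List Piece) (hl : l.length = i) :
    N p ((.cup o, i) :: D) (l ++ r) = ∑ c : ZMod p, N p D (l ++ c :: c :: r) := by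
  rw [N_at p (.cup o) i l [] r _ D hl rfl (by simp)]
  simp only [Kind.col]
  rw [Finset.sum_image]
  · simp
  · intro a _ b _ hab
    simpa using hab

theorem N_cap (i : ℕ) (l r : List (ZMod p)) (a b : ZMod p) (D : List Piece) (hl : l.length = i) :
    N p ((.cap, i) :: D) (l ++ a :: b :: r) = if a = b then N p D (l ++ r) else 0 := by
  rw [N_at p .cap i l [a, b] r _ D hl rfl (by simp)]
  simp only [Kind.col]
  split_ifs with h
  · simp
  · simp

/-- distant pieces commute -/
theorem N_far (k1 k2 : Kind) (i d : ℕ) (B : List Piece) (v : List (ZMod p)) :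
    N p ((k1, i) :: (k2, i + k1.oar + d) :: B) v = N p ((k2, i + k1.ar + d) :: (k1, i) :: B) v := by
  by_cases h : i + k1.ar + d + k2.ar ≤ v.length
  · obtain ⟨l, u, r, hl, hu, rfl⟩ := decomp v i k1.ar (by omega)
    obtain ⟨m, w, r, hm, hw, rfl⟩ := decomp r d k2.ar (by simp at h; omega)
    rw [N_at p k1 i l u (m ++ w ++ r) _ _ hl hu rfl,
      N_at p k2 (i + k1.ar + d) (l ++ u ++ m) w r _ _ (by simp; omega) hw (by simp)]
    have h1 : ∀ u' ∈ k1.col p u, N p ((k2, i + k1.oar + d) :: B) (l ++ u' ++ (m ++ w ++ r)) =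
        ∑ w' ∈ k2.col p w, N p B (l ++ u' ++ m ++ w' ++ r) := by
      intro u' hu'
      have h2 := col_len p hu hu'
      rw [N_at p k2 (i + k1.oar + d) (l ++ u' ++ m) w r _ _ (by simp; omega) hw (by simp)]
    have h3 : ∀ w' ∈ k2.col p w, N p ((k1, i) :: B) (l ++ u ++ m ++ w' ++ r) =
        ∑ u' ∈ k1.col p u, N p B (l ++ u' ++ m ++ w' ++ r) := by
      intro w' _
      rw [N_at p k1 i l u (m ++ w' ++ r) _ _ hl hu (by simp)]
      refine Finset.sum_congr rfl fun u' _ => ?_
      simp
    rw [Finset.sum_congr rfl h1, Finset.sum_congr rfl h3, Finset.sum_comm]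
  · have e1 : N p ((k1, i) :: (k2, i + k1.oar + d) :: B) v = 0 := by
      rw [N]
      refine Finset.sum_eq_zero fun w hw => ?_
      obtain ⟨h1, h2⟩ := act_len p hw
      exact N_short p _ _ _ _ (by omega)
    have e2 : N p ((k2, i + k1.ar + d) :: (k1, i) :: B) v = 0 := by
      by_cases h5 : i + k1.ar + d + k2.ar ≤ v.length
      · exact absurd h5 h
      · exact N_short p _ _ _ _ h5
    rw [e1, e2]

end Pool.BraidIndex
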