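import Pool.Agent.Work.MP_9d4fac_gt.Local

set_option autoImplicit false

namespace Pool.BraidIndex

open Finset

variable (p : ℕ) [NeZero p]

/-- lengths after the first piece -/
theorem run_len {k : Kind} {i : ℕ} {D : List Piece} {os : List Bool} (h : (runO ((k, i) :: D) os).isSome) :
    i + k.ar ≤ os.length ∧ ∃ w : List Bool, w.length + k.ar = os.length + k.oar ∧ (runO D w).isSome := by
  obtain ⟨w, h1, h2⟩ := run_cons h
  obtain ⟨h3, h4⟩ := step_some h1
  exact ⟨h3, w, h4, h2⟩

theorem loc_zigL (o : Bool) (i : ℕ) (B : List Piece) (os : List Bool)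
    (h : (runO ([(.cup o, i + 1), (.cap, i)] ++ B) os).isSome) (v : List (ZMod p)) (hv : v.length = os.length) :
    N p ([(.cup o, i + 1), (.cap, i)] ++ B) v = N p ([] ++ B) v := by
  obtain ⟨h1, -⟩ := run_len h
  simp only [Kind.ar] at h1
  obtain ⟨l, u, r, hl, hu, rfl⟩ := decomp v i 1 (by omega)
  obtain ⟨a, rfl⟩ := len1 hu
  have e1 : N p ((.cup o, i + 1) :: (.cap, i) :: B) (l ++ [a] ++ r) =
      ∑ c : ZMod p, N p ((.cap, i) :: B) (l ++ [a] ++ c :: c :: r) :=
    N_cup p o (i + 1) (l ++ [a]) r _ (by simp [hl])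
  have e2 : ∀ c : ZMod p, N p ((.cap, i) :: B) (l ++ [a] ++ c :: c :: r) =
      if a = c then N p B (l ++ [a] ++ r) else 0 := by
    intro c
    have := N_cap p i l (c :: r) a c B hl
    rw [show l ++ [a] ++ c :: c :: r = l ++ a :: c :: (c :: r) by simp, this]
    split_ifs with h6
    · subst h6; simp
    · rfl
  simp only [List.cons_append, List.nil_append]
  rw [e1]
  simp only [e2]
  simp

theorem loc_zigR (o : Bool) (i : ℕ) (B : List Piece) (os : List Bool)
    (h : (runO ([(.cup o, i), (.cap, i + 1)] ++ B) os).isSome) (v : List (ZMod p)) (hv : v.length = os.length) :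
    N p ([(.cup o, i), (.cap, i + 1)] ++ B) v = N p ([] ++ B) v := by
  obtain ⟨h1, w, hw, h2⟩ := run_len h
  obtain ⟨h3, -⟩ := run_len h2
  simp only [Kind.ar, Kind.oar] at h1 hw h3
  obtain ⟨l, u, r, hl, hu, rfl⟩ := decomp v i 1 (by omega)
  obtain ⟨a, rfl⟩ := len1 hu
  have e1 : N p ((.cup o, i) :: (.cap, i + 1) :: B) (l ++ ([a] ++ r)) =
      ∑ c : ZMod p, N p ((.cap, i + 1) :: B) (l ++ c :: c :: ([a] ++ r)) :=
    N_cup p o i l ([a] ++ r) _ hl
  have e2 : ∀ c : ZMod p, N p ((.cap, i + 1) :: B) (l ++ c :: c :: ([a] ++ r)) =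
      if c = a then N p B (l ++ [a] ++ r) else 0 := by
    intro c
    have := N_cap p (i + 1) (l ++ [c]) r c a B (by simp [hl])
    rw [show l ++ c :: c :: ([a] ++ r) = (l ++ [c]) ++ c :: a :: r by simp, this]
    split_ifs with h6
    · subst h6; simp
    · rfl
  simp only [List.cons_append, List.nil_append]
  rw [show l ++ [a] ++ r = l ++ ([a] ++ r) by simp, e1]
  simp only [e2]
  simp

theorem loc_r1cup (o s : Bool) (i : ℕ) (B : List Piece) (os : List Bool)
    (h : (runO ([(.cup o, i), (.cross s, i)] ++ B) os).isSome) (v : List (ZMod p)) (hv : v.length = os.length) :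
    N p ([(.cup o, i), (.cross s, i)] ++ B) v = N p ([(.cup (!o), i)] ++ B) v := by
  obtain ⟨h1, w, hw, h2⟩ := run_len h
  simp only [Kind.ar, Kind.oar] at h1 hw
  obtain ⟨l, u, r, hl, hu, rfl⟩ := decomp v i 0 (by omega)
  have hu' : u = [] := List.length_eq_zero_iff.1 hu
  subst hu'
  simp only [List.cons_append, List.nil_append, List.append_nil]
  rw [N_cup p o i l r _ hl, N_cup p (!o) i l r _ hl]
  refine Finset.sum_congr rfl fun c _ => ?_
  rw [N_cross p s i l r c c B hl]
  have e : 2 * c - c = c := by ring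
  rw [e, ite_self]

theorem loc_r1cap (s : Bool) (i : ℕ) (B : List Piece) (os : List Bool)
    (h : (runO ([(.cross s, i), (.cap, i)] ++ B) os).isSome) (v : List (ZMod p)) (hv : v.length = os.length) :
    N p ([(.cross s, i), (.cap, i)] ++ B) v = N p ([(.cap, i)] ++ B) v := by
  obtain ⟨h1, w, hw, h2⟩ := run_len h
  simp only [Kind.ar, Kind.oar] at h1 hw
  obtain ⟨l, u, r, hl, hu, rfl⟩ := decomp v i 2 (by omega)
  obtain ⟨a, b, rfl⟩ := len2 hu
  simp only [List.cons_append, List.nil_append]
  rw [show l ++ [a, b] ++ r = l ++ a :: b :: r by simp, N_cross p s i l r a b _ hl, N_cap p i l r _ _ B hl,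
    N_cap p i l r _ _ B hl]
  have e : ((if s = true then 2 * a - b else b) = (if s = true then a else 2 * b - a)) ↔ a = b := by
    cases s
    · simp only [Bool.false_eq_true, if_false]
      constructor
      · intro h; linear_combination h
      · intro h; linear_combination h
    · simp only [if_true]
      constructor
      · intro h; linear_combination h
      · intro h; linear_combination h
  simp only [e]

theorem loc_r2 (s : Bool) (i : ℕ) (B : List Piece) (os : List Bool)
    (h : (runO ([(.cross s, i), (.cross (!s), i)] ++ B) os).isSome) (v : List (ZMod p)) (hv : v.length = os.length) :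
    N p ([(.cross s, i), (.cross (!s), i)] ++ B) v = N p ([] ++ B) v := by
  obtain ⟨h1, w, hw, h2⟩ := run_len h
  simp only [Kind.ar, Kind.oar] at h1 hw
  obtain ⟨l, u, r, hl, hu, rfl⟩ := decomp v i 2 (by omega)
  obtain ⟨a, b, rfl⟩ := len2 hu
  simp only [List.cons_append, List.nil_append]
  rw [show l ++ [a, b] ++ r = l ++ a :: b :: r by simp, N_cross p s i l r a b _ hl, N_cross p (!s) i l r _ _ B hl]
  cases s
  · simp only [Bool.not_false, Bool.false_eq_true, if_true, if_false]
    rw [show 2 * b - (2 * b - a) = a by ring]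
  · simp only [Bool.not_true, Bool.false_eq_true, if_true, if_false]
    rw [show 2 * a - (2 * a - b) = b by ring]

end Pool.BraidIndex
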