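import Pool.Agent.Work.MP_9d4fac_gt.Split

/-!
# Local moves do not change the number of colourings
-/

set_option autoImplicit false

namespace Pool.BraidIndex

open Finset

namespace LocalB

variable (p : ℕ) [NeZero p]

theorem crossN (s : Bool) {i : ℕ} {l : List (ZMod p)} (hl : l.length = i) (a b : ZMod p)
    (r : List (ZMod p)) (B : List Piece) :
    N p ((.cross s, i) :: B) (l ++ a :: b :: r) =
      N p B (l ++ if s then (2 * a - b) :: a :: r else b :: (2 * b - a) :: r) := by
  subst hl
  have h := p_split p (.cross s) l [a, b] r B rfl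
  rw [List.append_assoc] at h
  change N p ((.cross s, l.length) :: B) (l ++ ([a, b] ++ r)) = _
  rw [h]
  simp only [Kind.col, Finset.sum_singleton]
  congr 1
  cases s <;> simp

theorem capN {i : ℕ} {l : List (ZMod p)} (hl : l.length = i) (a b : ZMod p)
    (r : List (ZMod p)) (B : List Piece) :
    N p ((.cap, i) :: B) (l ++ a :: b :: r) = if a = b then N p B (l ++ r) else 0 := by
  subst hl
  have h := p_split p .cap l [a, b] r B rfl
  rw [List.append_assoc] at h
  change N p ((.cap, l.length) :: B) (l ++ ([a, b] ++ r)) = _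
  rw [h]
  simp only [Kind.col]
  split_ifs
  · simp
  · simp

theorem cupN (o : Bool) {i : ℕ} {l : List (ZMod p)} (hl : l.length = i)
    (r : List (ZMod p)) (B : List Piece) :
    N p ((.cup o, i) :: B) (l ++ r) = ∑ c : ZMod p, N p B (l ++ c :: c :: r) := by
  subst hl
  have h := p_split p (.cup o) l [] r B rfl
  rw [List.append_nil] at h
  rw [h]
  simp only [Kind.col]
  rw [Finset.sum_image]
  · refine Finset.sum_congr rfl fun c _ => ?_
    congr 1
    simp
  · intro a _ b _ hab
    simpa using hab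

theorem crossN1 (s : Bool) {i : ℕ} {l : List (ZMod p)} (hl : l.length = i) (x a b : ZMod p)
    (r : List (ZMod p)) (B : List Piece) :
    N p ((.cross s, i + 1) :: B) (l ++ x :: a :: b :: r) =
      N p B (l ++ x :: if s then (2 * a - b) :: a :: r else b :: (2 * b - a) :: r) := by
  have h := crossN p s (l := l ++ [x]) (i := i + 1) (by simp [hl]) a b r B
  rw [List.append_assoc, List.append_assoc] at h
  exact h

theorem capN1 {i : ℕ} {l : List (ZMod p)} (hl : l.length = i) (x a b : ZMod p)
    (r : List (ZMod p)) (B : List Piece) :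
    N p ((.cap, i + 1) :: B) (l ++ x :: a :: b :: r) =
      if a = b then N p B (l ++ x :: r) else 0 := by
  have h := capN p (l := l ++ [x]) (i := i + 1) (by simp [hl]) a b r B
  rw [List.append_assoc, List.append_assoc] at h
  exact h

theorem cupN1 (o : Bool) {i : ℕ} {l : List (ZMod p)} (hl : l.length = i) (x : ZMod p)
    (r : List (ZMod p)) (B : List Piece) :
    N p ((.cup o, i + 1) :: B) (l ++ x :: r) = ∑ c : ZMod p, N p B (l ++ x :: c :: c :: r) := by
  have h := cupN p o (l := l ++ [x]) (i := i + 1) (by simp [hl]) r B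
  simp only [List.append_assoc] at h
  exact h

omit [NeZero p] in
/-- decompositions -/
theorem dec1 (v : List (ZMod p)) (i : ℕ) (h : i + 1 ≤ v.length) :
    ∃ (l : List (ZMod p)) (a : ZMod p) (r : List (ZMod p)), l.length = i ∧ v = l ++ a :: r := by
  obtain ⟨l, u, r, hl, hu, rfl⟩ := decomp v i 1 h
  obtain ⟨a, rfl⟩ := len1 hu
  exact ⟨l, a, r, hl, by simp⟩

omit [NeZero p] in
theorem dec2 (v : List (ZMod p)) (i : ℕ) (h : i + 2 ≤ v.length) :
    ∃ (l : List (ZMod p)) (a b : ZMod p) (r : List (ZMod p)), l.length = i ∧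
      v = l ++ a :: b :: r := by
  obtain ⟨l, u, r, hl, hu, rfl⟩ := decomp v i 2 h
  obtain ⟨a, b, rfl⟩ := len2 hu
  exact ⟨l, a, b, r, hl, by simp⟩

omit [NeZero p] in
theorem dec3 (v : List (ZMod p)) (i : ℕ) (h : i + 3 ≤ v.length) :
    ∃ (l : List (ZMod p)) (a b c : ZMod p) (r : List (ZMod p)), l.length = i ∧
      v = l ++ a :: b :: c :: r := by
  obtain ⟨l, u, r, hl, hu, rfl⟩ := decomp v i 3 h
  obtain ⟨a, b, c, rfl⟩ := len3 hu
  exact ⟨l, a, b, c, r, hl, by simp⟩

theorem loc_slideCup (o s : Bool) (i : ℕ) (B : List Piece) (v : List (ZMod p))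
    (h : i + 1 ≤ v.length) :
    N p ((.cup o, i) :: (.cross s, i + 1) :: B) v =
      N p ((.cup o, i + 1) :: (.cross (!s), i) :: B) v := by
  obtain ⟨l, a, r, hl, rfl⟩ := dec1 p v i h
  rw [cupN p o hl, cupN1 p o hl]
  cases s with
  | true =>
    refine Finset.sum_congr rfl fun c _ => ?_
    rw [crossN1 p _ hl, crossN p _ hl]
    simp
  | false =>
    refine Finset.sum_nbij' (fun c => 2 * a - c) (fun c => 2 * a - c) (fun _ _ => Finset.mem_univ _)
      (fun _ _ => Finset.mem_univ _) (fun c _ => by ring) (fun c _ => by ring) fun c _ => ?_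
    rw [crossN1 p _ hl, crossN p _ hl]
    simp

theorem loc_slideCap (s : Bool) (i : ℕ) (B : List Piece) (v : List (ZMod p))
    (h : i + 3 ≤ v.length) :
    N p ((.cross s, i) :: (.cap, i + 1) :: B) v =
      N p ((.cross (!s), i + 1) :: (.cap, i) :: B) v := by
  obtain ⟨l, a, b, c, r, hl, rfl⟩ := dec3 p v i h
  rw [crossN p _ hl, crossN1 p _ hl]
  cases s with
  | true =>
    simp only [if_true, Bool.not_true, Bool.false_eq_true, if_false]
    rw [capN1 p hl, capN p hl]
    by_cases hac : a = c
    · subst hac; rfl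
    · rw [if_neg hac, if_neg hac]
  | false =>
    simp only [if_true, Bool.not_false, Bool.false_eq_true, if_false]
    rw [capN1 p hl, capN p hl]
    by_cases hac : 2 * b - a = c
    · rw [if_pos hac, if_pos (by rw [← hac]; ring)]
    · rw [if_neg hac, if_neg (fun hh => hac (by rw [hh]; ring))]

theorem loc_r3 (s : Bool) (i : ℕ) (B : List Piece) (v : List (ZMod p))
    (h : i + 3 ≤ v.length) :
    N p ((.cross s, i) :: (.cross s, i + 1) :: (.cross s, i) :: B) v =
      N p ((.cross s, i + 1) :: (.cross s, i) :: (.cross s, i + 1) :: B) v := by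
  obtain ⟨l, a, b, c, r, hl, rfl⟩ := dec3 p v i h
  rw [crossN p _ hl, crossN1 p _ hl]
  cases s with
  | true =>
    simp only [if_true]
    rw [crossN1 p _ hl, crossN p _ hl]
    simp only [if_true]
    rw [crossN1 p _ hl, crossN p _ hl]
    simp only [if_true]
    congr 3
    ring
  | false =>
    simp only [Bool.false_eq_true, if_false]
    rw [crossN1 p _ hl, crossN p _ hl]
    simp only [Bool.false_eq_true, if_false]
    rw [crossN1 p _ hl, crossN p _ hl]
    simp only [Bool.false_eq_true, if_false]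
    congr 5
    ring

theorem loc_r2 (s : Bool) (i : ℕ) (B : List Piece) (v : List (ZMod p))
    (h : i + 2 ≤ v.length) :
    N p ((.cross s, i) :: (.cross (!s), i) :: B) v = N p B v := by
  obtain ⟨l, a, b, r, hl, rfl⟩ := dec2 p v i h
  rw [crossN p _ hl]
  cases s with
  | true =>
    simp only [if_true]
    rw [crossN p _ hl]
    simp
  | false =>
    simp only [Bool.false_eq_true, if_false]
    rw [crossN p _ hl]
    simp

theorem loc_r1cap (s : Bool) (i : ℕ) (B : List Piece) (v : List (ZMod p))
    (h : i + 2 ≤ v.length) :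
    N p ((.cross s, i) :: (.cap, i) :: B) v = N p ((.cap, i) :: B) v := by
  obtain ⟨l, a, b, r, hl, rfl⟩ := dec2 p v i h
  rw [crossN p _ hl]
  cases s with
  | true =>
    simp only [if_true]
    rw [capN p hl, capN p hl]
    by_cases hab : a = b
    · rw [if_pos hab, if_pos (by rw [hab]; ring)]
    · rw [if_neg hab, if_neg (fun hh => hab (by linear_combination hh))]
  | false =>
    simp only [Bool.false_eq_true, if_false]
    rw [capN p hl, capN p hl]
    by_cases hab : a = b
    · rw [if_pos hab, if_pos (by rw [hab]; ring)]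
    · rw [if_neg hab, if_neg (fun hh => hab (by linear_combination hh))]

theorem loc_r1cup (o s : Bool) (i : ℕ) (B : List Piece) (v : List (ZMod p))
    (h : i ≤ v.length) :
    N p ((.cup o, i) :: (.cross s, i) :: B) v = N p ((.cup (!o), i) :: B) v := by
  obtain ⟨l, u, r, hl, hu, rfl⟩ := decomp v i 0 h
  obtain rfl : u = [] := List.length_eq_zero_iff.1 hu
  rw [List.append_nil, cupN p o hl, cupN p _ hl]
  refine Finset.sum_congr rfl fun c _ => ?_
  rw [crossN p _ hl]
  congr 2
  have e : 2 * c - c = c := by ring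
  rw [e, ite_self]

theorem loc_zigL (o : Bool) (i : ℕ) (B : List Piece) (v : List (ZMod p))
    (h : i + 1 ≤ v.length) :
    N p ((.cup o, i + 1) :: (.cap, i) :: B) v = N p B v := by
  obtain ⟨l, a, r, hl, rfl⟩ := dec1 p v i h
  rw [cupN1 p o hl]
  rw [Finset.sum_eq_single a]
  · rw [capN p hl, if_pos rfl]
  · intro c _ hc
    rw [capN p hl, if_neg (Ne.symm hc)]
  · intro hh; exact absurd (Finset.mem_univ a) hh

theorem loc_zigR (o : Bool) (i : ℕ) (B : List Piece) (v : List (ZMod p))
    (h : i + 1 ≤ v.length) :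
    N p ((.cup o, i) :: (.cap, i + 1) :: B) v = N p B v := by
  obtain ⟨l, a, r, hl, rfl⟩ := dec1 p v i h
  rw [cupN p o hl]
  rw [Finset.sum_eq_single a]
  · rw [capN1 p hl, if_pos rfl]
  · intro c _ hc
    rw [capN1 p hl, if_neg hc]
  · intro hh; exact absurd (Finset.mem_univ a) hh

theorem col_len {k : Kind} {u u' : List (ZMod p)} (h : u' ∈ k.col p u) (hu : u.length = k.ar) :
    u'.length = k.oar := by
  cases k with
  | cup o =>
    obtain rfl : u = [] := List.length_eq_zero_iff.1 hu
    simp only [Kind.col, Finset.mem_image, Finset.mem_univ, true_and] at h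
    obtain ⟨c, rfl⟩ := h
    rfl
  | cap =>
    obtain ⟨a, b, rfl⟩ := len2 hu
    simp only [Kind.col] at h
    split_ifs at h with h6
    · simp only [Finset.mem_singleton] at h
      subst h; rfl
    · simp at h
  | cross s =>
    obtain ⟨a, b, rfl⟩ := len2 hu
    simp only [Kind.col, Finset.mem_singleton] at h
    subst h
    split_ifs <;> rfl

theorem loc_far (k1 k2 : Kind) (i d : ℕ) (B : List Piece) (v : List (ZMod p))
    (h : i + k1.ar + d + k2.ar ≤ v.length) :
    N p ((k1, i) :: (k2, i + k1.oar + d) :: B) v =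
      N p ((k2, i + k1.ar + d) :: (k1, i) :: B) v := by
  obtain ⟨w, u2, r, hw, hu2, rfl⟩ := decomp v (i + k1.ar + d) k2.ar h
  obtain ⟨l, u1, m, hl, hu1, rfl⟩ := decomp w i k1.ar (by omega)
  have hm : m.length = d := by
    simp only [List.length_append] at hw; omega
  have e1 : l ++ u1 ++ m ++ u2 ++ r = l ++ u1 ++ (m ++ u2 ++ r) := by simp
  have h1 : N p ((k1, i) :: (k2, i + k1.oar + d) :: B) (l ++ u1 ++ m ++ u2 ++ r) =
      ∑ u1' ∈ k1.col p u1, ∑ u2' ∈ k2.col p u2, N p B (l ++ u1' ++ m ++ u2' ++ r) := by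
    rw [e1, ← hl, p_split p k1 l u1 _ _ hu1]
    refine Finset.sum_congr rfl fun u1' hu1' => ?_
    have hlen := col_len p hu1' hu1
    have e2 : l ++ u1' ++ (m ++ u2 ++ r) = (l ++ u1' ++ m) ++ u2 ++ r := by simp
    have e3 : l.length + k1.oar + d = (l ++ u1' ++ m).length := by
      simp only [List.length_append]; omega
    rw [e2, e3, p_split p k2 _ u2 _ _ hu2]
  have h2 : N p ((k2, i + k1.ar + d) :: (k1, i) :: B) (l ++ u1 ++ m ++ u2 ++ r) =
      ∑ u2' ∈ k2.col p u2, ∑ u1' ∈ k1.col p u1, N p B (l ++ u1' ++ m ++ u2' ++ r) := by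
    rw [← hw, p_split p k2 _ u2 _ _ hu2]
    refine Finset.sum_congr rfl fun u2' _ => ?_
    have e2 : l ++ u1 ++ m ++ u2' ++ r = l ++ u1 ++ (m ++ u2' ++ r) := by simp
    rw [e2, ← hl, p_split p k1 l u1 _ _ hu1]
    refine Finset.sum_congr rfl fun u1' _ => ?_
    congr 1
    simp
  rw [h1, h2, Finset.sum_comm]

end LocalB

theorem p_local : S_local := by
  intro p _ X Y B os hXY hX hY v hv
  cases hXY with
  | far k1 k2 i d =>
    obtain ⟨w, hw, hw2⟩ := run_cons hX
    obtain ⟨w', hw', -⟩ := run_cons hw2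
    have h1 := step_some hw
    have h2 := step_some hw'
    exact LocalB.loc_far p k1 k2 i d B v (by omega)
  | zigL o i =>
    obtain ⟨w, hw, hw2⟩ := run_cons hX
    have h1 := step_some hw
    simp only [Kind.ar] at h1
    exact LocalB.loc_zigL p o i B v (by omega)
  | zigR o i =>
    obtain ⟨w, hw, hw2⟩ := run_cons hX
    obtain ⟨w', hw', -⟩ := run_cons hw2
    have h1 := step_some hw
    have h2 := step_some hw'
    simp only [Kind.ar, Kind.oar] at h1 h2
    exact LocalB.loc_zigR p o i B v (by omega)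
  | r1cup o s i =>
    obtain ⟨w, hw, hw2⟩ := run_cons hX
    have h1 := step_some hw
    simp only [Kind.ar] at h1
    exact LocalB.loc_r1cup p o s i B v (by omega)
  | r1cap s i =>
    obtain ⟨w, hw, hw2⟩ := run_cons hX
    have h1 := step_some hw
    simp only [Kind.ar] at h1
    exact LocalB.loc_r1cap p s i B v (by omega)
  | r2 s i =>
    obtain ⟨w, hw, hw2⟩ := run_cons hX
    have h1 := step_some hw
    simp only [Kind.ar] at h1
    exact LocalB.loc_r2 p s i B v (by omega)
  | r3 s i =>
    obtain ⟨w, hw, hw2⟩ := run_cons hX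
    obtain ⟨w', hw', -⟩ := run_cons hw2
    have h1 := step_some hw
    have h2 := step_some hw'
    simp only [Kind.ar, Kind.oar] at h1 h2
    exact LocalB.loc_r3 p s i B v (by omega)
  | slideCup o s i =>
    obtain ⟨w, hw, hw2⟩ := run_cons hX
    obtain ⟨w', hw', -⟩ := run_cons hw2
    have h1 := step_some hw
    have h2 := step_some hw'
    simp only [Kind.ar, Kind.oar] at h1 h2
    exact LocalB.loc_slideCup p o s i B v (by omega)
  | slideCap s i =>
    obtain ⟨w, hw, hw2⟩ := run_cons hX
    obtain ⟨w', hw', -⟩ := run_cons hw2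
    have h1 := step_some hw
    have h2 := step_some hw'
    simp only [Kind.ar, Kind.oar] at h1 h2
    exact LocalB.loc_slideCap p s i B v (by omega)

end Pool.BraidIndex

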