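import Pool.Agent.Work.MP_9d4fac_gt.Interface

/-!
# The lower bound for the number of colourings
-/

set_option autoImplicit false

namespace Pool.BraidIndex

open Finset

namespace Lower

theorem runO_append (A B : List Piece) (v : List Bool) :
    runO (A ++ B) v = (runO A v).bind (runO B) := by
  induction A generalizing v with
  | nil => simp [runO]
  | cons q A ih =>
    simp only [List.cons_append, runO]
    cases h : stepO q v with
    | none => simp
    | some w => simp [ih]

theorem ori_length {k : Kind} {u u' : List Bool} (h : k.ori u = some u') : u'.length = k.oar := by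
  cases k with
  | cup o =>
    cases u with
    | nil => simp only [Kind.ori, Option.some.injEq] at h; subst h; rfl
    | cons a u => simp [Kind.ori] at h
  | cap =>
    match u, h with
    | [], h => simp [Kind.ori] at h
    | [x], h => simp [Kind.ori] at h
    | [x, y], h =>
      simp only [Kind.ori] at h
      split_ifs at h
      simp only [Option.some.injEq] at h; subst h; rfl
    | x :: y :: z :: u, h => simp [Kind.ori] at h
  | cross s =>
    match u, h with
    | [], h => simp [Kind.ori] at h
    | [x], h => simp [Kind.ori] at h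
    | [x, y], h =>
      simp only [Kind.ori, Option.some.injEq] at h; subst h; rfl
    | x :: y :: z :: u, h => simp [Kind.ori] at h

theorem stepO_len {k : Kind} {i : ℕ} {v w : List Bool} (h : stepO (k, i) v = some w) :
    ∃ m, v.length = i + k.ar + m ∧ w.length = i + k.oar + m := by
  unfold stepO at h
  split_ifs at h with hi
  rw [Option.map_eq_some_iff] at h
  obtain ⟨u, hu, rfl⟩ := h
  have hl := ori_length hu
  simp only at hi hl
  refine ⟨v.length - (i + k.ar), by omega, ?_⟩
  simp only [List.length_append, List.length_take, List.length_drop, hl]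
  omega

theorem len_step {D : List Piece} (hD : IsDiagram D) {t i : ℕ} {k : Kind}
    (h : D[t]? = some (k, i)) :
    t + 1 ≤ D.length ∧ ∃ m, (ori D t).length = i + k.ar + m ∧ (ori D (t + 1)).length = i + k.oar + m := by
  have ht : t < D.length := by
    by_contra hc
    rw [List.getElem?_eq_none (by omega)] at h
    exact absurd h (by simp)
  refine ⟨ht, ?_⟩
  have h1 : runO (D.take (t + 1)) [] = (runO (D.take t) []).bind (runO [(k, i)]) := by
    rw [← runO_append, List.take_add_one, h]
    rfl
  have h2 : runO D [] = (runO (D.take (t + 1)) []).bind (runO (D.drop (t + 1))) := by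
    rw [← runO_append, List.take_append_drop]
  have h3 : runO D [] = some [] := hD
  rw [h3] at h2
  obtain ⟨w, hw, -⟩ := Option.bind_eq_some_iff.1 h2.symm
  obtain ⟨v, hv, hvw⟩ := Option.bind_eq_some_iff.1 (h1.symm.trans hw)
  have h4 : stepO (k, i) v = some w := by
    simp only [runO] at hvw
    obtain ⟨w', hw', hw''⟩ := Option.bind_eq_some_iff.1 hvw
    simp only [Option.some.injEq] at hw''
    rw [hw', hw'']
  obtain ⟨m, hm1, hm2⟩ := stepO_len h4
  refine ⟨m, ?_, ?_⟩
  · rw [ori, hv]; exact hm1
  · rw [ori, hw]; exact hm2

variable {p : ℕ}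

theorem lev_split (D : List Piece) (f : ℕ × ℕ → ZMod p) {t a b c : ℕ}
    (h : (ori D t).length = a + b + c) :
    lev D f t = (List.range a).map (fun j => f (t, j)) ++ (List.range b).map (fun j => f (t, a + j)) ++
      (List.range c).map (fun j => f (t, a + b + j)) := by
  rw [lev, h, List.range_add, List.range_add, List.map_append, List.map_append, List.map_map,
    List.map_map]
  rfl

theorem left_eq {D : List Piece} (hD : IsDiagram D) {X : Finset ℕ} {f : ℕ × ℕ → ZMod p}
    (hf : Good D X f) {t i : ℕ} {k : Kind} (h : D[t]? = some (k, i)) {j : ℕ} (hj : j < i) :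
    f (t, j) = f (t + 1, j) := by
  obtain ⟨ht, m, h1, h2⟩ := len_step hD h
  refine hf.1 _ _ ⟨by simp only; omega, by simp only; omega⟩ ⟨by simp only; omega, by simp only; omega⟩
    (Smooth.left t j i k h hj)

theorem right_eq {D : List Piece} (hD : IsDiagram D) {X : Finset ℕ} {f : ℕ × ℕ → ZMod p}
    (hf : Good D X f) {t i : ℕ} {k : Kind} (h : D[t]? = some (k, i)) {m : ℕ}
    (h1 : (ori D t).length = i + k.ar + m) (h2 : (ori D (t + 1)).length = i + k.oar + m)
    {j : ℕ} (hj : j < m) :
    f (t, i + k.ar + j) = f (t + 1, i + k.oar + j) := by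
  obtain ⟨ht, -⟩ := len_step hD h
  refine hf.1 _ _ ⟨by simp only; omega, by simp only; omega⟩ ⟨by simp only; omega, by simp only; omega⟩
    (Smooth.right t j i k h)

theorem mem_act [NeZero p] {k : Kind} {i : ℕ} {l u u' r : List (ZMod p)} (hl : l.length = i)
    (hu : u.length = k.ar) (h : u' ∈ k.col p u) : l ++ u' ++ r ∈ act p (k, i) (l ++ u ++ r) := by
  subst hl
  unfold act
  rw [if_pos (by simp [hu])]
  rw [Finset.mem_image]
  refine ⟨u', ?_, ?_⟩
  · convert h using 2
    simp only [List.append_assoc, List.drop_left]
    rw [← hu]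
    simp
  · simp only
    congr 1
    · congr 1
      simp
    · rw [← hu, ← List.length_append, List.drop_left]

/-- the next level of a good function -/
theorem lev_mem [NeZero p] {D : List Piece} (hD : IsDiagram D) {X : Finset ℕ}
    {f : ℕ × ℕ → ZMod p} (hf : Good D X f) {t i : ℕ} {k : Kind} (h : D[t]? = some (k, i))
    (hk : ∀ s, k = .cross s → t ∈ X) : lev D f (t + 1) ∈ act p (k, i) (lev D f t) := by
  obtain ⟨ht, m, h1, h2⟩ := len_step hD h
  rw [lev_split D f h1, lev_split D f h2]
  have e1 : (List.range i).map (fun j => f (t + 1, j)) = (List.range i).map (fun j => f (t, j)) := by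
    refine List.map_congr_left fun j hj => ?_
    exact (left_eq hD hf h (List.mem_range.1 hj)).symm
  have e2 : (List.range m).map (fun j => f (t + 1, i + k.oar + j)) =
      (List.range m).map (fun j => f (t, i + k.ar + j)) := by
    refine List.map_congr_left fun j hj => ?_
    exact (right_eq hD hf h h1 h2 (List.mem_range.1 hj)).symm
  rw [e1, e2]
  refine mem_act (by simp) (by simp) ?_
  cases k with
  | cup o =>
    have e3 : f (t + 1, i) = f (t + 1, i + 1) := by
      simp only [Kind.oar] at h2
      exact hf.1 _ _ ⟨ht, by simp only; omega⟩ ⟨ht, by simp only; omega⟩ (Smooth.cup t i o h)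
    simp only [Kind.ar, Kind.oar, List.range_zero, List.map_nil, List.range_succ, List.nil_append,
      List.map_cons, Kind.col, Finset.mem_image, Finset.mem_univ, true_and,
      List.cons_append, Nat.add_zero]
    exact ⟨f (t + 1, i), by rw [e3]⟩
  | cap =>
    have e3 : f (t, i) = f (t, i + 1) := by
      simp only [Kind.ar] at h1
      exact hf.1 _ _ ⟨by simp only; omega, by simp only; omega⟩
        ⟨by simp only; omega, by simp only; omega⟩ (Smooth.cap t i h)
    simp only [Kind.ar, Kind.oar, List.range_zero, List.map_nil, List.range_succ, List.nil_append,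
      List.map_cons, Kind.col, List.cons_append, Nat.add_zero, if_pos e3,
      Finset.mem_singleton]
  | cross s =>
    have hX := hk s rfl
    obtain ⟨a1, a2⟩ := hf.2.2 t hX s i h
    simp only [Kind.ar] at h1
    simp only [Kind.oar] at h2
    have e4 : f (t + 1, i + 1) = f (t, i) := by
      by_cases hp : Par D t i
      · have := hf.1 _ _ ⟨by simp only; omega, by simp only; omega⟩
          ⟨by simp only; omega, by simp only; omega⟩ (Smooth.par1 t i s h hp)
        rw [← this, ← a1]
      · have := hf.1 _ _ ⟨by simp only; omega, by simp only; omega⟩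
          ⟨by simp only; omega, by simp only; omega⟩ (Smooth.anti1 t i s h hp)
        rw [← this, ← a2]
    simp only [Kind.ar, Kind.oar, List.range_zero, List.map_nil, List.range_succ, List.nil_append,
      List.map_cons, Kind.col, List.cons_append, Nat.add_zero, Finset.mem_singleton]
    rw [← a1, ← a2, e4]
    have e5 : 2 * f (t, i) - f (t, i) = f (t, i) := by ring
    rw [e5, ite_self]

theorem cross_len {D : List Piece} (hD : IsDiagram D) {t i : ℕ} {s : Bool}
    (h : D[t]? = some (.cross s, i)) : (ori D (t + 1)).length = (ori D t).length := by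
  obtain ⟨ht, m, h1, h2⟩ := len_step hD h
  rw [h1, h2]; rfl

/-- a crossing of a row does not change a good function -/
theorem cross_eq {D : List Piece} (hD : IsDiagram D) {X : Finset ℕ}
    (hpar : ∀ t s i, D[t]? = some (.cross s, i) → t ∉ X → Par D t i)
    {f : ℕ × ℕ → ZMod p} (hf : Good D X f) {t i : ℕ} {s : Bool}
    (h : D[t]? = some (.cross s, i)) (j : ℕ) : f (t + 1, j) = f (t, j) := by
  obtain ⟨ht, m, h1, h2⟩ := len_step hD h
  have h1' := h1
  have h2' := h2
  simp only [Kind.ar] at h1
  simp only [Kind.oar] at h2
  rcases lt_or_ge j i with hj | hj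
  · exact (left_eq hD hf h hj).symm
  rcases lt_or_ge j (i + 2) with hj2 | hj2
  · by_cases hX : t ∈ X
    · obtain ⟨a1, a2⟩ := hf.2.2 t hX s i h
      have e4 : f (t + 1, i + 1) = f (t, i) := by
        by_cases hp : Par D t i
        · have := hf.1 _ _ ⟨by simp only; omega, by simp only; omega⟩
            ⟨by simp only; omega, by simp only; omega⟩ (Smooth.par1 t i s h hp)
          rw [← this, ← a1]
        · have := hf.1 _ _ ⟨by simp only; omega, by simp only; omega⟩
            ⟨by simp only; omega, by simp only; omega⟩ (Smooth.anti1 t i s h hp)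
          rw [← this, ← a2]
      obtain rfl | rfl : j = i ∨ j = i + 1 := by omega
      · exact a2.symm
      · rw [e4, a1]
    · have hp := hpar t s i h hX
      obtain rfl | rfl : j = i ∨ j = i + 1 := by omega
      · exact (hf.1 _ _ ⟨by simp only; omega, by simp only; omega⟩
            ⟨by simp only; omega, by simp only; omega⟩ (Smooth.par0 t j s h hp)).symm
      · exact (hf.1 _ _ ⟨by simp only; omega, by simp only; omega⟩
            ⟨by simp only; omega, by simp only; omega⟩ (Smooth.par1 t i s h hp)).symm
  · rcases lt_or_ge j (i + 2 + m) with hj3 | hj3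
    · have := right_eq hD hf h h1' h2' (j := j - (i + 2)) (by omega)
      simp only [Kind.ar, Kind.oar] at this
      rw [show i + 2 + (j - (i + 2)) = j by omega] at this
      exact this.symm
    · rw [hf.2.1 (t + 1, j) (fun hc => by have := hc.2; simp only at this; omega),
        hf.2.1 (t, j) (fun hc => by have := hc.2; simp only at this; omega)]

theorem row_eq {D : List Piece} (hD : IsDiagram D) {X : Finset ℕ}
    (hpar : ∀ t s i, D[t]? = some (.cross s, i) → t ∉ X → Par D t i)
    {f : ℕ × ℕ → ZMod p} (hf : Good D X f) {t i : ℕ} {s : Bool} (n : ℕ)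
    (h : ∀ t' < n, D[t + t']? = some (.cross s, i)) :
    ∀ t' ≤ n, (ori D (t + t')).length = (ori D t).length ∧ ∀ j, f (t + t', j) = f (t, j) := by
  intro t'
  induction t' with
  | zero => intro _; exact ⟨rfl, fun _ => rfl⟩
  | succ t' ih =>
    intro h'
    obtain ⟨i1, i2⟩ := ih (by omega)
    refine ⟨?_, fun j => ?_⟩
    · rw [← i1, ← add_assoc, cross_len hD (h t' (by omega))]
    · rw [← i2 j, ← add_assoc, cross_eq hD hpar hf (h t' (by omega)) j]

theorem lev_inj {D : List Piece} {X : Finset ℕ} {f g : ℕ × ℕ → ZMod p} (hf : Good D X f)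
    (hg : Good D X g) {t : ℕ} (h : lev D f t = lev D g t) (j : ℕ) : f (t, j) = g (t, j) := by
  rcases lt_or_ge j (ori D t).length with hj | hj
  · have h1 := congrArg (fun l => l[j]?) h
    simp only [lev, List.getElem?_map, List.getElem?_range hj, Option.map_some,
      Option.some.injEq] at h1
    exact h1
  · rw [hf.2.1 (t, j) (fun hc => by have := hc.2; simp only at this; omega),
      hg.2.1 (t, j) (fun hc => by have := hc.2; simp only at this; omega)]

theorem main [NeZero p] (hrow : S_row) {D : List Piece} (hD : IsDiagram D) {X : Finset ℕ}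
    (hpar : ∀ t s i, D[t]? = some (.cross s, i) → t ∉ X → Par D t i) {t : ℕ} {B : List Piece}
    (hR : Rows p X t B) :
    ∀ A : List Piece, D = A ++ B → A.length = t → ∀ (v : List (ZMod p))
      (F : Finset (ℕ × ℕ → ZMod p)), (∀ f ∈ F, Good D X f) → (∀ f ∈ F, lev D f t = v) →
      (∀ f ∈ F, ∀ g ∈ F, ∀ t' ≤ t, ∀ j, f (t', j) = g (t', j)) → F.card ≤ N p B v := by
  classical
  -- the general step
  have step : ∀ (t i : ℕ) (k : Kind) (B : List Piece),
      (∀ A : List Piece, D = A ++ B → A.length = t + 1 → ∀ (v : List (ZMod p))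
      (F : Finset (ℕ × ℕ → ZMod p)), (∀ f ∈ F, Good D X f) → (∀ f ∈ F, lev D f (t + 1) = v) →
      (∀ f ∈ F, ∀ g ∈ F, ∀ t' ≤ t + 1, ∀ j, f (t', j) = g (t', j)) → F.card ≤ N p B v) →
      (∀ s, k = .cross s → t ∈ X) →
      ∀ A : List Piece, D = A ++ ((k, i) :: B) → A.length = t → ∀ (v : List (ZMod p))
      (F : Finset (ℕ × ℕ → ZMod p)), (∀ f ∈ F, Good D X f) → (∀ f ∈ F, lev D f t = v) →
      (∀ f ∈ F, ∀ g ∈ F, ∀ t' ≤ t, ∀ j, f (t', j) = g (t', j)) →
      F.card ≤ N p ((k, i) :: B) v := by
    intro t i k B ih hk A hA hAt v F hF hv hag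
    have hget : D[t]? = some (k, i) := by
      rw [hA, ← hAt]; simp
    have hmem : ∀ f ∈ F, lev D f (t + 1) ∈ act p (k, i) v := by
      intro f hf
      rw [← hv f hf]
      exact lev_mem hD (hF f hf) hget hk
    rw [N, Finset.card_eq_sum_card_fiberwise (f := fun f => lev D f (t + 1)) (t := act p (k, i) v)
      (fun f hf => hmem f hf)]
    refine Finset.sum_le_sum fun v' _ => ?_
    refine ih (A ++ [(k, i)]) (by rw [hA]; simp) (by simp [hAt]) v' _
      (fun f hf => hF f (Finset.mem_filter.1 hf).1) (fun f hf => (Finset.mem_filter.1 hf).2) ?_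
    intro f hf g hg t' ht' j
    obtain ⟨hf1, hf2⟩ := Finset.mem_filter.1 hf
    obtain ⟨hg1, hg2⟩ := Finset.mem_filter.1 hg
    rcases Nat.lt_or_ge t t' with h | h
    · obtain rfl : t' = t + 1 := by omega
      exact lev_inj (hF f hf1) (hF g hg1) (hf2.trans hg2.symm) j
    · exact hag f hf1 g hg1 t' h j
  induction hR with
  | nil t =>
    intro A hA hAt v F hF hv hag
    rw [List.append_nil] at hA
    subst hA
    rcases F.eq_empty_or_nonempty with rfl | ⟨f, hf⟩
    · simp
    · have hcard : F.card ≤ 1 := by
        rw [Finset.card_le_one]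
        intro f hf g hg
        funext q
        obtain ⟨t', j⟩ := q
        rcases Nat.lt_or_ge t t' with h | h
        · rw [(hF f hf).2.1 (t', j) (fun hc => by have := hc.1; simp only at this; omega),
            (hF g hg).2.1 (t', j) (fun hc => by have := hc.1; simp only at this; omega)]
        · exact hag f hf g hg t' h j
      have hvn : v = [] := by
        rw [← hv f hf, lev, ori, ← hAt, List.take_length]
        have h3 : runO D [] = some [] := hD
        rw [h3]
        simp
      rw [N, if_pos hvn]
      exact hcard
  | cup t i o B _ ih => exact step t i _ B ih (fun s hs => by cases hs)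
  | cap t i B _ ih => exact step t i _ B ih (fun s hs => by cases hs)
  | single t i s B htX _ ih => exact step t i _ B ih (fun _ _ => htX)
  | row t i m s B _ ih =>
    intro A hA hAt v F hF hv hag
    rcases F.eq_empty_or_nonempty with rfl | ⟨f0, hf0⟩
    · simp
    have hget : ∀ t' < p * m, D[t + t']? = some (.cross s, i) := by
      intro t' ht'
      rw [hA, ← hAt, List.getElem?_append_right (by omega),
        List.getElem?_append_left (by simp only [List.length_replicate]; omega)]
      rw [List.getElem?_replicate, if_pos (by omega)]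
    have hN : N p (List.replicate (p * m) (.cross s, i) ++ B) v = N p B v := by
      rcases Nat.eq_zero_or_pos (p * m) with h0 | h0
      · rw [h0]; rfl
      · refine hrow p i m s B v ?_
        obtain ⟨ht, m', h1, h2⟩ := len_step hD (hget 0 h0)
        rw [← hv f0 hf0, lev, List.length_map, List.length_range]
        simp only [Nat.add_zero, Kind.ar] at h1
        omega
    rw [hN]
    refine ih (A ++ List.replicate (p * m) (.cross s, i)) (by rw [hA]; simp) (by simp [hAt]) v F hF
      ?_ ?_
    · intro f hf
      obtain ⟨r1, r2⟩ := row_eq hD hpar (hF f hf) (p * m) hget (p * m) le_rfl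
      rw [← hv f hf, lev, lev, r1]
      exact List.map_congr_left fun j _ => r2 j
    · intro f hf g hg t' ht' j
      rcases Nat.lt_or_ge t t' with h | h
      · obtain ⟨d, rfl⟩ := Nat.exists_eq_add_of_lt h
        rw [add_assoc]
        rw [(row_eq hD hpar (hF f hf) (p * m) hget (d + 1) (by omega)).2 j,
          (row_eq hD hpar (hF g hg) (p * m) hget (d + 1) (by omega)).2 j]
        exact hag f hf g hg t le_rfl j
      · exact hag f hf g hg t' h j

end Lower

theorem p_lower (hrow : S_row) : S_lower := by
  intro p _ D X hD hR hpar F hF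
  refine Lower.main hrow hD hpar hR [] rfl rfl [] F hF ?_ ?_
  · intro f _
    rw [lev, ori, List.take_zero]
    rfl
  · intro f hf g hg t' ht' j
    obtain rfl : t' = 0 := by omega
    have h0 : ∀ h : ℕ × ℕ → ZMod p, Good D X h → h (0, j) = 0 := by
      intro h hh
      refine hh.2.1 (0, j) (fun hc => ?_)
      have := hc.2
      rw [ori, List.take_zero] at this
      exact absurd this (Nat.not_lt_zero _)
    rw [h0 f (hF f hf), h0 g (hF g hg)]

end Pool.BraidIndex

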