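import Pool.Agent.Work.MP_9d4fac_gt.S_localB

set_option autoImplicit false

namespace Pool.BraidIndex

open Finset

namespace LB

theorem act_len {p : ℕ} [NeZero p] {q : Piece} {v v' : List (ZMod p)} (h : v' ∈ act p q v) :
    v'.length + q.1.ar = v.length + q.1.oar := by
  unfold act at h
  split_ifs at h with h1
  · rw [Finset.mem_image] at h
    obtain ⟨u', hu', rfl⟩ := h
    have h2 := col_len hu'
    simp only [List.length_append, List.length_take, List.length_drop]
    omega
  · exact absurd h (Finset.notMem_empty _)

theorem ctx (hloc : S_local) {p : ℕ} [NeZero p] {X Y : List Piece} (B : List Piece) (h : Local X Y)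
    (A : List Piece) : ∀ (os : List Bool) (v : List (ZMod p)), v.length = os.length →
      (runO (A ++ (X ++ B)) os).isSome → (runO (A ++ (Y ++ B)) os).isSome →
      N p (A ++ (X ++ B)) v = N p (A ++ (Y ++ B)) v := by
  induction A with
  | nil =>
    intro os v hv hX hY
    exact hloc p X Y B os h hX hY v hv
  | cons q A ih =>
    intro os v hv hX hY
    obtain ⟨-, w, s1, g1⟩ := fits (D := A ++ (X ++ B)) hX
    obtain ⟨-, w', s2, g2⟩ := fits (D := A ++ (Y ++ B)) hY
    have e : w' = w := by
      rw [s1] at s2
      exact (Option.some.inj s2).symm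
    subst e
    show ∑ v' ∈ act p q v, N p (A ++ (X ++ B)) v' = ∑ v' ∈ act p q v, N p (A ++ (Y ++ B)) v'
    apply Finset.sum_congr rfl
    intro v' hv'
    have h1 := act_len hv'
    have h2 := step_len s1
    exact ih w' v' (by omega) g1 g2

theorem p_isoB (hloc : S_local) : S_isotopic := by
  intro p _ D D' h
  induction h with
  | rel D D' h =>
    obtain ⟨h1, h2, A, X, Y, B, hl, rfl, rfl⟩ := h
    rw [List.append_assoc, List.append_assoc]
    unfold IsDiagram at h1 h2
    rw [List.append_assoc] at h1 h2
    exact ctx hloc B hl A [] [] rfl (by rw [h1]; rfl) (by rw [h2]; rfl)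
  | refl D => rfl
  | symm D D' _ ih => exact ih.symm
  | trans D D' D'' _ _ ih1 ih2 => exact ih1.trans ih2

/-- A2 without hypotheses -/
theorem all_isotopic : S_isotopic := p_isoB p_localB

end LB

end Pool.BraidIndex
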