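import Pool.Agent.Work.MP_9d4fac_gt.Split

set_option autoImplicit false

namespace Pool.BraidIndex

open Finset

/-- moves under a common beginning -/
theorem N_context (hlocal : S_local) (p : ℕ) [NeZero p] {X Y B : List Piece} (h : Local X Y) (A : List Piece) :
    ∀ os : List Bool, (runO (A ++ (X ++ B)) os).isSome → (runO (A ++ (Y ++ B)) os).isSome →
      ∀ v : List (ZMod p), v.length = os.length → N p (A ++ (X ++ B)) v = N p (A ++ (Y ++ B)) v := by
  induction A with
  | nil =>
    intro os h1 h2 v hv
    exact hlocal p X Y B os h h1 h2 v hv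
  | cons q A ih =>
    intro os h1 h2 v hv
    obtain ⟨k, i⟩ := q
    obtain ⟨w, hw, hw1⟩ := run_cons h1
    obtain ⟨w', hw', hw2⟩ := run_cons h2
    have e : w' = w := by
      rw [hw] at hw'
      exact (Option.some.inj hw').symm
    subst e
    obtain ⟨a1, a2⟩ := step_some hw
    rw [List.cons_append, List.cons_append, N, N]
    refine Finset.sum_congr rfl fun v' hv' => ?_
    obtain ⟨b1, b2⟩ := act_len p hv'
    exact ih w' hw1 hw2 v' (by omega)

theorem p_isotopic (hlocal : S_local) : S_isotopic := by
  intro p _ D D' h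
  induction h with
  | rel D D' h =>
    obtain ⟨h1, h2, A, X, Y, B, hl, rfl, rfl⟩ := h
    rw [List.append_assoc] at h1 h2 ⊢
    rw [List.append_assoc]
    refine N_context hlocal p hl A [] ?_ ?_ [] rfl
    · rw [IsDiagram] at h1; rw [h1]; rfl
    · rw [IsDiagram] at h2; rw [h2]; rfl
  | refl D => rfl
  | symm D D' _ ih => exact ih.symm
  | trans D D' D'' _ _ ih1 ih2 => exact ih1.trans ih2

end Pool.BraidIndex
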