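import Pool.Agent.Work.MP_9d4fac_gt.Interface

set_option autoImplicit false

namespace Pool.BraidIndex

open Finset

namespace Row

theorem iter (hsplit : S_split) (p : ℕ) [NeZero p] (s : Bool) (B : List Piece) (l r : List (ZMod p)) (n : ℕ) :
    ∀ a b : ZMod p, N p (List.replicate n (Kind.cross s, l.length) ++ B) (l ++ [a, b] ++ r) =
      N p B (l ++ [a + n * (if s then a - b else b - a), b + n * (if s then a - b else b - a)] ++ r) := by
  induction n with
  | zero =>
    intro a b
    simp
  | succ n ih =>
    intro a b
    rw [List.replicate_succ, List.cons_append, hsplit p (Kind.cross s) l [a, b] r _ rfl]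
    cases s with
    | true =>
      have hcol : (Kind.cross true).col p [a, b] = {[2 * a - b, a]} := rfl
      rw [hcol, Finset.sum_singleton, ih]
      congr 4
      · simp only [if_true]
        push_cast
        ring
      · simp only [if_true]
        push_cast
        congr 1
        ring
    | false =>
      have hcol : (Kind.cross false).col p [a, b] = {[b, 2 * b - a]} := rfl
      rw [hcol, Finset.sum_singleton, ih]
      congr 4
      · simp only [Bool.false_eq_true, if_false]
        push_cast
        ring
      · simp only [Bool.false_eq_true, if_false]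
        push_cast
        congr 1
        ring

theorem decomp {α : Type} (i : ℕ) (v : List α) (h : i + 2 ≤ v.length) :
    ∃ (l r : List α) (a b : α), l.length = i ∧ v = l ++ [a, b] ++ r := by
  refine ⟨v.take i, v.drop (i + 2), v[i]'(by omega), v[i + 1]'(by omega), ?_, ?_⟩
  · rw [List.length_take]
    omega
  · have h1 : v.drop i = v[i]'(by omega) :: v.drop (i + 1) := List.drop_eq_getElem_cons (by omega)
    have h2 : v.drop (i + 1) = v[i + 1]'(by omega) :: v.drop (i + 2) := List.drop_eq_getElem_cons (by omega)
    calc v = v.take i ++ v.drop i := (List.take_append_drop i v).symm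
      _ = _ := by rw [h1, h2]; simp

end Row

theorem p_row (hsplit : S_split) : S_row := by
  intro p _ i m s B v hv
  obtain ⟨l, r, a, b, rfl, rfl⟩ := Row.decomp i v hv
  rw [Row.iter hsplit]
  have h0 : ((p * m : ℕ) : ZMod p) = 0 := by
    push_cast
    rw [ZMod.natCast_self, zero_mul]
  rw [h0]
  simp

end Pool.BraidIndex
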