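import Pool.Agent.Work.MP_9d4fac_gt.Interface

set_option autoImplicit false

namespace Pool.BraidIndex

open Finset

theorem slice {α : Type*} (l u r : List α) (n : ℕ) (h : u.length = n) :
    ((l ++ u ++ r).drop l.length).take n = u ∧ (l ++ u ++ r).take l.length = l ∧
      (l ++ u ++ r).drop (l.length + n) = r := by
  subst h
  refine ⟨?_, ?_, ?_⟩
  · simp
  · simp
  · rw [List.append_assoc, ← List.drop_drop]
    simp

theorem act_split (p : ℕ) [NeZero p] (k : Kind) (l u r : List (ZMod p)) (h : u.length = k.ar) :
    act p (k, l.length) (l ++ u ++ r) = (k.col p u).image fun u' => l ++ u' ++ r := by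
  obtain ⟨h1, h2, h3⟩ := slice l u r _ h
  unfold act
  rw [if_pos (by simp [h])]
  simp only [h1, h2, h3]

theorem p_split : S_split := by
  intro p _ k l u r D h
  rw [N, act_split p k l u r h, Finset.sum_image]
  intro a _ b _ hab
  have h1 : l ++ a ++ r = l ++ b ++ r := hab
  rw [List.append_assoc, List.append_assoc] at h1
  exact List.append_cancel_right (List.append_cancel_left h1)

theorem p_osplit : S_osplit := by
  intro k l u r h
  obtain ⟨h1, h2, h3⟩ := slice l u r _ h
  unfold stepO
  rw [if_pos (by simp [h])]
  simp only [h1, h2, h3]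

/-- a list which is long enough is decomposed -/
theorem decomp {α : Type*} (v : List α) (i n : ℕ) (h : i + n ≤ v.length) :
    ∃ l u r : List α, l.length = i ∧ u.length = n ∧ v = l ++ u ++ r := by
  refine ⟨v.take i, (v.drop i).take n, v.drop (i + n), ?_, ?_, ?_⟩
  · rw [List.length_take]; omega
  · rw [List.length_take, List.length_drop]; omega
  · rw [List.append_assoc]
    rw [← List.drop_drop, List.take_append_drop, List.take_append_drop]

theorem len1 {α : Type*} {u : List α} (h : u.length = 1) : ∃ a, u = [a] := List.length_eq_one_iff.1 h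
theorem len2 {α : Type*} {u : List α} (h : u.length = 2) : ∃ a b, u = [a, b] := List.length_eq_two.1 h
theorem len3 {α : Type*} {u : List α} (h : u.length = 3) : ∃ a b c, u = [a, b, c] := List.length_eq_three.1 h

/-- too short words -/
theorem N_short (p : ℕ) [NeZero p] (k : Kind) (i : ℕ) (D : List Piece) (v : List (ZMod p))
    (h : ¬ i + k.ar ≤ v.length) : N p ((k, i) :: D) v = 0 := by
  rw [N]
  unfold act
  rw [if_neg h, Finset.sum_empty]

theorem step_some {k : Kind} {i : ℕ} {v w : List Bool} (h : stepO (k, i) v = some w) :
    i + k.ar ≤ v.length ∧ w.length + k.ar = v.length + k.oar := by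
  unfold stepO at h
  split_ifs at h with h1
  · obtain ⟨l, u, r, rfl, hu, rfl⟩ := decomp v i k.ar h1
    obtain ⟨h2, h3, h4⟩ := slice l u r _ hu
    simp only [h2, h3, h4] at h
    refine ⟨h1, ?_⟩
    rw [Option.map_eq_some_iff] at h
    obtain ⟨u', hu', rfl⟩ := h
    have h5 : u'.length = k.oar := by
      cases k with
      | cup o =>
        have : u = [] := List.length_eq_zero_iff.1 hu
        subst this
        simp only [Kind.ori, Option.some.injEq] at hu'
        subst hu'; rfl
      | cap =>
        obtain ⟨a, b, rfl⟩ := len2 hu
        simp only [Kind.ori] at hu'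
        split_ifs at hu' with h6
        simp only [Option.some.injEq] at hu'
        subst hu'; rfl
      | cross s =>
        obtain ⟨a, b, rfl⟩ := len2 hu
        simp only [Kind.ori, Option.some.injEq] at hu'
        subst hu'; rfl
    simp only [List.length_append]
    omega

/-- the first piece of a list which runs -/
theorem run_cons {k : Kind} {i : ℕ} {D : List Piece} {v : List Bool} (h : (runO ((k, i) :: D) v).isSome) :
    ∃ w, stepO (k, i) v = some w ∧ (runO D w).isSome := by
  rw [runO] at h
  cases h1 : stepO (k, i) v with
  | none => rw [h1] at h; simp at h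
  | some w => rw [h1] at h; exact ⟨w, rfl, h⟩

/-- the colours which leave a piece -/
theorem act_len (p : ℕ) [NeZero p] {k : Kind} {i : ℕ} {v w : List (ZMod p)} (h : w ∈ act p (k, i) v) :
    i + k.ar ≤ v.length ∧ w.length + k.ar = v.length + k.oar := by
  unfold act at h
  split_ifs at h with h1
  · obtain ⟨l, u, r, rfl, hu, rfl⟩ := decomp v i k.ar h1
    obtain ⟨h2, h3, h4⟩ := slice l u r _ hu
    simp only [h2, h3, h4] at h
    refine ⟨h1, ?_⟩
    rw [Finset.mem_image] at h
    obtain ⟨u', hu', rfl⟩ := h
    have h5 : u'.length = k.oar := by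
      cases k with
      | cup o =>
        have : u = [] := List.length_eq_zero_iff.1 hu
        subst this
        simp only [Kind.col, Finset.mem_image, Finset.mem_univ, true_and] at hu'
        obtain ⟨c, rfl⟩ := hu'
        rfl
      | cap =>
        obtain ⟨a, b, rfl⟩ := len2 hu
        simp only [Kind.col] at hu'
        split_ifs at hu' with h6
        · simp only [Finset.mem_singleton] at hu'
          subst hu'; rfl
        · simp at hu'
      | cross s =>
        obtain ⟨a, b, rfl⟩ := len2 hu
        simp only [Kind.col, Finset.mem_singleton] at hu'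
        subst hu'
        split_ifs <;> rfl
    simp only [List.length_append]
    omega
  · simp at h

end Pool.BraidIndex
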